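import Mathlib

set_option autoImplicit false

/-!
# Signed letters, transvections and signed permutations of a free group

Notation: `SL n` signed letters, `neg a` the inverse letter, `x a` the element of the free group,
`T a b` the transvection `x_a ↦ x_a x_b` (the other letters are fixed), `SP n` the signed
permutations of the letters, `sp σ` the automorphism `x_a ↦ x_{σ a}`.
-/

namespace OutF

/-- Signed letters: `(i, true)` is the letter `x_i`, `(i, false)` its inverse. -/
abbrev SL (n : ℕ) := Fin n × Bool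

/-- The inverse letter. -/
def neg {n : ℕ} (a : SL n) : SL n := (a.1, !a.2)

/-- The element of the free group given by a signed letter. -/
def x {n : ℕ} (a : SL n) : FreeGroup (Fin n) := FreeGroup.mk [a]

/-- The automorphism group of the free group of rank `n`. -/
abbrev AutF (n : ℕ) := MulAut (FreeGroup (Fin n))

variable {n : ℕ}

@[simp] theorem neg_fst (a : SL n) : (neg a).1 = a.1 := rfl

@[simp] theorem neg_neg (a : SL n) : neg (neg a) = a := by simp [neg]

theorem neg_ne (a : SL n) : neg a ≠ a := by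
  intro h
  have := congrArg Prod.snd h
  simp [neg] at this

theorem eq_or_neg {a b : SL n} (h : a.1 = b.1) : a = b ∨ a = neg b := by
  obtain ⟨i, s⟩ := a
  obtain ⟨j, t⟩ := b
  simp only at h
  subst h
  cases s <;> cases t <;> simp [neg]

theorem x_neg (a : SL n) : x (neg a) = (x a)⁻¹ := by
  simp [x, neg, FreeGroup.inv_mk, FreeGroup.invRev]

theorem toWord_x (a : SL n) : (x a).toWord = [a] := by
  simp [x, FreeGroup.toWord_mk]

theorem norm_x (a : SL n) : (x a).norm = 1 := by
  simp [FreeGroup.norm, toWord_x]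

theorem x_inj {a b : SL n} (h : x a = x b) : a = b := by
  have := congrArg FreeGroup.toWord h
  simpa [toWord_x] using this

theorem x_true (i : Fin n) : x (i, true) = FreeGroup.of i := rfl

/-- Two automorphisms are equal if they agree on one of `x_i`, `x_i⁻¹` for every `i`. -/
theorem hom_ext {G : Type*} [Group G] {α β : FreeGroup (Fin n) →* G}
    (h : ∀ i, ∃ s, α (x (i, s)) = β (x (i, s))) : α = β := by
  refine FreeGroup.ext_hom _ _ fun i => ?_
  obtain ⟨s, hs⟩ := h i
  cases s
  · have e : x (i, false) = (FreeGroup.of i)⁻¹ := by rw [← x_true, ← x_neg]; rfl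
    rw [e, map_inv, map_inv, inv_inj] at hs
    exact hs
  · exact hs

/-- Two automorphisms are equal if they agree on one of `x_i`, `x_i⁻¹` for every `i`. -/
theorem aut_ext {α β : AutF n} (h : ∀ i, ∃ s, α (x (i, s)) = β (x (i, s))) : α = β := by
  have := hom_ext (α := α.toMonoidHom) (β := β.toMonoidHom) h
  ext1 z
  exact DFunLike.congr_fun this z

/-- The endomorphism `x_a ↦ x_a x_b`, fixing the other letters. -/
def tHom (a b : SL n) : FreeGroup (Fin n) →* FreeGroup (Fin n) :=
  FreeGroup.lift fun i =>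
    if i = a.1 then (if a.2 = true then x (i, true) * x b else x (neg b) * x (i, true))
    else x (i, true)

theorem tHom_self (a b : SL n) : tHom a b (x a) = x a * x b := by
  obtain ⟨i, s⟩ := a
  cases s
  · have e : x (i, false) = (FreeGroup.of i)⁻¹ := by rw [← x_true, ← x_neg]; rfl
    rw [e, map_inv, tHom, FreeGroup.lift_apply_of]
    simp [x_neg, x_true]
  · rw [x_true, tHom, FreeGroup.lift_apply_of]
    simp [x_true]

theorem tHom_other (a b : SL n) {c : SL n} (hc : c.1 ≠ a.1) : tHom a b (x c) = x c := by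
  obtain ⟨i, s⟩ := c
  simp only at hc
  cases s
  · have e : x (i, false) = (FreeGroup.of i)⁻¹ := by rw [← x_true, ← x_neg]; rfl
    rw [e, map_inv, tHom, FreeGroup.lift_apply_of, if_neg hc, x_true]
  · rw [x_true, tHom, FreeGroup.lift_apply_of, if_neg hc, x_true]

theorem tHom_comp (a b : SL n) (h : a.1 ≠ b.1) :
    (tHom a (neg b)).comp (tHom a b) = MonoidHom.id _ := by
  refine hom_ext fun i => ?_
  by_cases hi : i = a.1
  · subst hi
    refine ⟨a.2, ?_⟩
    change tHom a (neg b) (tHom a b (x a)) = x a
    rw [tHom_self, map_mul, tHom_self, tHom_other _ _ (by exact h.symm), x_neg]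
    simp
  · refine ⟨true, ?_⟩
    rw [MonoidHom.comp_apply, tHom_other _ _ (by exact hi), tHom_other _ _ (by exact hi)]
    rfl

/-- The transvection `x_a ↦ x_a x_b` (the identity if `a` and `b` are the same letter up to
inversion). -/
def T (a b : SL n) : AutF n :=
  if h : a.1 ≠ b.1 then
    MonoidHom.toMulEquiv (tHom a b) (tHom a (neg b)) (tHom_comp a b h)
      (by simpa using tHom_comp a (neg b) h)
  else 1

theorem T_self {a b : SL n} (h : a.1 ≠ b.1) : T a b (x a) = x a * x b := by
  rw [T, dif_pos h]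
  exact tHom_self a b

theorem T_other {a b c : SL n} (hc : c.1 ≠ a.1) : T a b (x c) = x c := by
  unfold T
  split_ifs with h
  · exact tHom_other a b hc
  · rfl

theorem T_self_neg {a b : SL n} (h : a.1 ≠ b.1) : T a b (x (neg a)) = x (neg b) * x (neg a) := by
  rw [x_neg, map_inv, T_self h, x_neg, mul_inv_rev]

/-- The group of signed permutations of the letters. -/
def SP (n : ℕ) : Subgroup (Equiv.Perm (SL n)) where
  carrier := {σ | ∀ a, σ (neg a) = neg (σ a)}
  mul_mem' := by
    intro σ τ hσ hτ a
    rw [Equiv.Perm.mul_apply, hτ, hσ]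
    rfl
  one_mem' := by intro a; rfl
  inv_mem' := by
    intro σ hσ a
    have e : σ (σ⁻¹ a) = a := σ.apply_symm_apply a
    have h := hσ (σ⁻¹ a)
    rw [e] at h
    rw [← h]
    exact σ.symm_apply_apply _

/-- The endomorphism given by a signed permutation. -/
def spHom (σ : SP n) : FreeGroup (Fin n) →* FreeGroup (Fin n) :=
  FreeGroup.lift fun i => x (σ.1 (i, true))

theorem spHom_x (σ : SP n) (a : SL n) : spHom σ (x a) = x (σ.1 a) := by
  obtain ⟨i, s⟩ := a
  cases s
  · have e : x (i, false) = (FreeGroup.of i)⁻¹ := by rw [← x_true, ← x_neg]; rfl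
    rw [e, map_inv, spHom, FreeGroup.lift_apply_of, ← x_neg]
    congr 1
    exact (σ.2 (i, true)).symm
  · rw [x_true, spHom, FreeGroup.lift_apply_of]

theorem spHom_comp (σ τ : SP n) : (spHom σ).comp (spHom τ) = spHom (σ * τ) := by
  refine hom_ext fun i => ⟨true, ?_⟩
  rw [MonoidHom.comp_apply, spHom_x, spHom_x, spHom_x]
  rfl

theorem spHom_one : spHom (1 : SP n) = MonoidHom.id _ := by
  refine hom_ext fun i => ⟨true, ?_⟩
  rw [spHom_x]
  rfl

/-- The automorphism `x_a ↦ x_{σ a}` of a signed permutation `σ`. -/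
def sp : SP n →* AutF n where
  toFun σ := MonoidHom.toMulEquiv (spHom σ) (spHom σ⁻¹)
    (by rw [spHom_comp, inv_mul_cancel, spHom_one]) (by rw [spHom_comp, mul_inv_cancel, spHom_one])
  map_one' := by
    refine aut_ext fun i => ⟨true, ?_⟩
    exact spHom_x 1 (i, true)
  map_mul' σ τ := by
    refine aut_ext fun i => ⟨true, ?_⟩
    rw [MulAut.mul_apply]
    change spHom (σ * τ) (x (i, true)) = spHom σ (spHom τ (x (i, true)))
    rw [spHom_x, spHom_x, spHom_x]
    rfl

theorem sp_x (σ : SP n) (a : SL n) : sp σ (x a) = x (σ.1 a) := spHom_x σ a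

theorem sp_inv_x (σ : SP n) (a : SL n) : (sp σ)⁻¹ (x (σ.1 a)) = x a := by
  rw [← map_inv, sp_x]
  congr 1
  exact σ.1.symm_apply_apply a

/-- A signed permutation is determined up to sign by letters: it induces a permutation of the
unsigned letters. -/
theorem sp_fst (σ : SP n) {a b : SL n} (h : a.1 = b.1) : (σ.1 a).1 = (σ.1 b).1 := by
  rcases eq_or_neg h with rfl | rfl
  · rfl
  · rw [σ.2 b]; rfl

theorem sp_fst_ne (σ : SP n) {a b : SL n} (h : a.1 ≠ b.1) : (σ.1 a).1 ≠ (σ.1 b).1 := by
  intro h1
  have h2 := sp_fst σ⁻¹ h1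
  have e : ∀ c : SL n, (σ⁻¹).1 (σ.1 c) = c := fun c => σ.1.symm_apply_apply c
  rw [e, e] at h2
  exact h h2

/-- A permutation of the letters. -/
def lp : Equiv.Perm (Fin n) →* SP n where
  toFun e := ⟨Equiv.prodCongr e (Equiv.refl Bool), fun a => rfl⟩
  map_one' := by ext1; rfl
  map_mul' e f := by ext1; rfl

theorem lp_apply (e : Equiv.Perm (Fin n)) (a : SL n) : (lp e).1 a = (e a.1, a.2) := rfl

/-- The inversion of the letter `i`. -/
def li (i : Fin n) : SP n :=
  ⟨Equiv.swap (i, true) (i, false), fun a => by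
    obtain ⟨j, s⟩ := a
    by_cases hj : j = i
    · subst hj
      cases s <;> simp [neg]
    · have h1 : ∀ s : Bool, (j, s) ≠ (i, true) := fun s h => hj (congrArg Prod.fst h)
      have h2 : ∀ s : Bool, (j, s) ≠ (i, false) := fun s h => hj (congrArg Prod.fst h)
      simp only [neg]
      rw [Equiv.swap_apply_of_ne_of_ne (h1 _) (h2 _), Equiv.swap_apply_of_ne_of_ne (h1 _) (h2 _)]⟩

theorem li_self (a : SL n) : (li a.1).1 a = neg a := by
  obtain ⟨i, s⟩ := a
  cases s <;> simp [li, neg]

theorem li_other {i : Fin n} {a : SL n} (h : a.1 ≠ i) : (li i).1 a = a := by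
  refine Equiv.swap_apply_of_ne_of_ne ?_ ?_
  · intro e; exact h (by rw [e])
  · intro e; exact h (by rw [e])

/-- The elements of `S_j`: the transvections `T a b` with `|b| < j ≤ |a|`. -/
def SS (n j : ℕ) : Set (AutF n) := {t | ∃ a b : SL n, (b.1 : ℕ) < j ∧ j ≤ (a.1 : ℕ) ∧ t = T a b}

/-- The signed permutations preserving the set of the letters `< j`. -/
def HP (n j : ℕ) : Subgroup (SP n) where
  carrier := {σ | ∀ a : SL n, ((σ.1 a).1 : ℕ) < j ↔ (a.1 : ℕ) < j}
  mul_mem' := by
    intro σ τ hσ hτ a
    rw [← hτ a, ← hσ (τ.1 a)]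
    rfl
  one_mem' := by intro a; rfl
  inv_mem' := by
    intro σ hσ a
    have h := hσ ((σ⁻¹).1 a)
    have e : σ.1 ((σ⁻¹).1 a) = a := σ.1.apply_symm_apply a
    rw [e] at h
    exact h.symm

/-- The group `H_j`. -/
def HH (n j : ℕ) : Subgroup (AutF n) := (HP n j).map sp

instance (j : ℕ) : Finite (HH n j) := by
  have h : ((HP n j : Set (SP n))).Finite := Set.toFinite _
  exact (h.image sp).to_subtype

/-- The generators: `gen 0 = T (last) (0)`, `gen k` exchanges the letters `k - 1` and `k`
(`1 ≤ k ≤ m`), `gen (m + 1)` inverts the last letter. -/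
def gen (m k : ℕ) : AutF (m + 1) :=
  if k = 0 then T (Fin.last m, true) (0, true)
  else if h : k ≤ m then sp (lp (Equiv.swap ⟨k - 1, by omega⟩ ⟨k, by omega⟩))
  else sp (li (Fin.last m))

/-- The length of the longest common prefix of two lists. -/
def lcp {α : Type*} [DecidableEq α] : List α → List α → ℕ
  | a :: l, b :: l' => if a = b then lcp l l' + 1 else 0
  | [], _ => 0
  | _ :: _, [] => 0

/-- The length of the longest common prefix of the reduced words of `g` and `h`. -/
def pre (g h : FreeGroup (Fin n)) : ℕ := lcp g.toWord h.toWord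

/-- The value of a word in base `2 n`, the first letter is the most significant digit. -/
def code (l : List (SL n)) : ℕ :=
  Nat.ofDigits (2 * n) (l.map fun a => 2 * (a.1 : ℕ) + (if a.2 = true then 1 else 0)).reverse

/-- The code of the first half of the reduced word of `g`. -/
def half (g : FreeGroup (Fin n)) : ℕ := code (g.toWord.take ((g.norm + 1) / 2))

/-- The total length. -/
def pot1 (β : AutF n) : ℕ := ∑ i : Fin n, (β (x (i, true))).norm

/-- The second potential. -/
def pot2 (β : AutF n) : ℕ :=
  ∑ i : Fin n, (half (β (x (i, true))) + half (β (x (i, true)))⁻¹)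

/-- `β` can not be improved by a transvection. -/
def IsMin (β : AutF n) : Prop :=
  ∀ a b : SL n, a.1 ≠ b.1 → pot1 β ≤ pot1 (β * T a b) ∧
    (pot1 (β * T a b) = pot1 β → pot2 β ≤ pot2 (β * T a b))

end OutF
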