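import Pool.Agent.Lib.OutF.Pre

set_option autoImplicit false

/-!
MODULE Half (about 150 lines). Codes of words.

PROOF. `code_append`: `Nat.ofDigits_append` after `List.map_append`, `List.reverse_append`.
`code_inj`: `Nat.ofDigits_inj_of_len_eq` (base `2 * n > 1`: if the lists are not empty then `n ≥ 1`, base at least 2; digits
`2 i + 0/1 < 2 n`), the digit determines the letter.
`half_change`: let `p = v.toWord.take k`, `q = v⁻¹.toWord.take k`, `v.norm = 2 * k`. Then `v.toWord = p ++ FreeGroup.invRev q`
(`FreeGroup.toWord_inv`; the second half of `v.toWord` is the inverse of the first half of `v⁻¹.toWord = invRev v.toWord`).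
`k ≤ pre u⁻¹ v` (equality `hk`) and `take_pre` give `u⁻¹.toWord = p ++ r` (`r = u⁻¹.toWord.drop k`), so
`u = mk (invRev r ++ invRev p)` and `u.toWord = invRev r ++ invRev p`, `u * v = mk (invRev r ++ invRev q)`; the length of this word is
`u.norm = (u * v).norm` (`norm_inv_mul u⁻¹ v` with `hk`), so it is the reduced word of `u * v` (a word whose length is the norm is
reduced: `FreeGroup.Red.sublist`/`List.Sublist.eq_of_length` for `FreeGroup.reduce.red`). `(u * v)⁻¹.toWord = q ++ r`.
With `H = (u.norm + 1) / 2` and `2 k ≤ u.norm`: `H ≤ (invRev r).length`, so `half (u * v) = half u`; `k ≤ H`, so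
`half u⁻¹ = code (p ++ r.take (H - k))`, `half (u * v)⁻¹ = code (q ++ r.take (H - k))`; by `code_append` the inequality
`code p ≤ code q` follows from `half u⁻¹ ≤ half (u * v)⁻¹` (the factor `(2 n) ^ _` is positive if `n ≥ 1`; for `n = 0` all words are
empty).
-/

namespace OutF

variable {n : ℕ}

theorem code_append (l l' : List (SL n)) :
    code (l ++ l') = code l' + (2 * n) ^ l'.length * code l := by
  unfold code
  rw [List.map_append, List.reverse_append, Nat.ofDigits_append, List.length_reverse,
    List.length_map]

private theorem digit_lt (a : SL n) : 2 * (a.1 : ℕ) + (if a.2 = true then 1 else 0) < 2 * n := by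
  have h := a.1.2
  split_ifs <;> omega

private theorem digit_inj :
    Function.Injective fun a : SL n => 2 * (a.1 : ℕ) + (if a.2 = true then 1 else 0) := by
  rintro ⟨i, s⟩ ⟨j, t⟩ h
  simp only at h
  cases s <;> cases t <;> simp only [Bool.false_eq_true, if_false, if_true] at h
  · have h1 : i = j := Fin.ext (by omega)
    rw [h1]
  · omega
  · omega
  · have h1 : i = j := Fin.ext (by omega)
    rw [h1]

theorem code_inj {l l' : List (SL n)} (hl : l.length = l'.length) (h : code l = code l') :
    l = l' := by
  cases l with
  | nil =>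
    symm
    rw [← List.length_eq_zero_iff, ← hl]
    rfl
  | cons a l =>
    have hn : 1 < 2 * n := by
      have h1 := a.1.2
      omega
    unfold code at h
    have h2 := Nat.ofDigits_inj_of_len_eq hn (by simpa using hl) (by
        intro d hd
        rw [List.mem_reverse, List.mem_map] at hd
        obtain ⟨b, -, rfl⟩ := hd
        exact digit_lt b) (by
        intro d hd
        rw [List.mem_reverse, List.mem_map] at hd
        obtain ⟨b, -, rfl⟩ := hd
        exact digit_lt b) h
    exact List.map_injective_iff.2 digit_inj (List.reverse_injective h2)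

private theorem invRev_app (l l' : List (SL n)) :
    FreeGroup.invRev (l ++ l') = FreeGroup.invRev l' ++ FreeGroup.invRev l := by
  simp [FreeGroup.invRev]

/-- If `v = p q⁻¹` with `|p| = |q| = k`, `p` is exactly the common prefix of `u⁻¹` and `v`, and
`2 k ≤ |u|`, then replacing `u` by `u v` replaces the prefix `p` of `u⁻¹` by `q`. -/
theorem half_change {u v : FreeGroup (Fin n)} {k : ℕ} (hv : v.norm = 2 * k)
    (hk : pre u⁻¹ v = k) (hu : 2 * k ≤ u.norm)
    (h : half u + half u⁻¹ ≤ half (u * v) + half (u * v)⁻¹) :
    code (v.toWord.take k) ≤ code (v⁻¹.toWord.take k) := by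
  obtain ⟨p, hp⟩ : ∃ p, v.toWord.take k = p := ⟨_, rfl⟩
  obtain ⟨q, hq⟩ : ∃ q, v⁻¹.toWord.take k = q := ⟨_, rfl⟩
  rw [hp, hq]
  have hvl : v.toWord.length = 2 * k := hv
  have hpl : p.length = k := by
    rw [← hp, List.length_take, hvl]
    omega
  have hql : q.length = k := by
    rw [← hq, List.length_take, FreeGroup.toWord_inv, FreeGroup.invRev_length, hvl]
    omega
  -- the word of `v`
  have hvw : v.toWord = p ++ FreeGroup.invRev q := by
    have h1 : v.toWord = v.toWord.take k ++ v.toWord.drop k := (List.take_append_drop k _).symm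
    have h2 : (FreeGroup.invRev (v.toWord.drop k)).length = k := by
      rw [FreeGroup.invRev_length, List.length_drop, hvl]
      omega
    have h3 : q = FreeGroup.invRev (v.toWord.drop k) := by
      rw [← hq, FreeGroup.toWord_inv]
      conv_lhs => rw [h1]
      rw [invRev_app, List.take_append_of_le_length h2.ge, List.take_of_length_le h2.le]
    rw [h3, FreeGroup.invRev_invRev, ← hp]
    exact h1
  -- the word of `u⁻¹`
  obtain ⟨r, hr⟩ : ∃ r, u⁻¹.toWord = p ++ r := by
    refine ⟨u⁻¹.toWord.drop k, ?_⟩
    rw [← hp, ← take_pre hk.ge, List.take_append_drop]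
  have huw : u.toWord = FreeGroup.invRev r ++ FreeGroup.invRev p := by
    rw [← invRev_app, ← hr, FreeGroup.toWord_inv, FreeGroup.invRev_invRev]
  have hun : u.norm = r.length + k := by
    rw [FreeGroup.norm, huw, List.length_append, FreeGroup.invRev_length, FreeGroup.invRev_length,
      hpl]
  have huin : u⁻¹.norm = u.norm := FreeGroup.norm_inv_eq
  have e1 : u = FreeGroup.mk (FreeGroup.invRev r) * FreeGroup.mk (FreeGroup.invRev p) := by
    rw [FreeGroup.mul_mk, ← huw, FreeGroup.mk_toWord]
  have e2 : v = FreeGroup.mk p * FreeGroup.mk (FreeGroup.invRev q) := by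
    rw [FreeGroup.mul_mk, ← hvw, FreeGroup.mk_toWord]
  have e3 : u * v = FreeGroup.mk (FreeGroup.invRev r ++ FreeGroup.invRev q) := by
    rw [← FreeGroup.mul_mk, e1, e2, ← FreeGroup.inv_mk (L := p)]
    group
  have huvn : (u * v).norm = u.norm := by
    have h4 := norm_inv_mul u⁻¹ v
    rw [inv_inv, hk, huin, hv] at h4
    omega
  have huvw : (u * v).toWord = FreeGroup.invRev r ++ FreeGroup.invRev q := by
    have h5 : (u * v).toWord = FreeGroup.reduce (FreeGroup.invRev r ++ FreeGroup.invRev q) := by
      rw [e3, FreeGroup.toWord_mk]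
    have h6 : (u * v).toWord.Sublist (FreeGroup.invRev r ++ FreeGroup.invRev q) := by
      rw [h5]
      exact FreeGroup.Red.sublist FreeGroup.reduce.red
    refine h6.eq_of_length ?_
    rw [List.length_append, FreeGroup.invRev_length, FreeGroup.invRev_length, hql]
    exact huvn.trans hun
  have huvi : (u * v)⁻¹.toWord = q ++ r := by
    rw [FreeGroup.toWord_inv, huvw, invRev_app, FreeGroup.invRev_invRev, FreeGroup.invRev_invRev]
  have huvin : (u * v)⁻¹.norm = u.norm := FreeGroup.norm_inv_eq.trans huvn
  have hH1 : (u.norm + 1) / 2 ≤ r.length := by omega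
  have hH2 : k ≤ (u.norm + 1) / 2 := by omega
  have e4 : half (u * v) = half u := by
    unfold half
    rw [huvn, huvw, huw, List.take_append_of_le_length (by rw [FreeGroup.invRev_length]; exact hH1),
      List.take_append_of_le_length (by rw [FreeGroup.invRev_length]; exact hH1)]
  rw [e4] at h
  have h7 : half u⁻¹ ≤ half (u * v)⁻¹ := by omega
  unfold half at h7
  rw [huin, huvin, hr, huvi, List.take_append, List.take_append,
    List.take_of_length_le (hpl.le.trans hH2), List.take_of_length_le (hql.le.trans hH2),
    hpl, hql, code_append, code_append] at h7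
  have h8 : (2 * n) ^ (r.take ((u.norm + 1) / 2 - k)).length * code p ≤
      (2 * n) ^ (r.take ((u.norm + 1) / 2 - k)).length * code q := by omega
  rcases Nat.eq_zero_or_pos n with hn | hn
  · subst hn
    have h9 : p = [] := by
      cases p with
      | nil => rfl
      | cons a l => exact a.1.elim0
    rw [h9]
    exact Nat.zero_le _
  · exact Nat.le_of_mul_le_mul_left h8 (by positivity)

end OutF
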