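import Pool.Agent.Lib.OutF.Pot
import Pool.Agent.Lib.OutF.Half

set_option autoImplicit false

/-!
MODULE Tie. The second condition of Nielsen for a minimal automorphism.
-/

namespace OutF

variable {n : ℕ}

private theorem tie_key {β : AutF n} (hβ : IsMin β) (a b : SL n) (hne : a.1 ≠ b.1)
    (hab : b ≠ neg a) (k : ℕ) (hv : (β (x b)).norm = 2 * k)
    (hk : pre (β (x a))⁻¹ (β (x b)) = k) :
    code ((β (x b)).toWord.take k) ≤ code ((β (x b))⁻¹.toWord.take k) := by
  have hn := norm_inv_mul (β (x a))⁻¹ (β (x b))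
  rw [inv_inv, FreeGroup.norm_inv_eq, hk, hv] at hn
  have hn' : (β (x a) * β (x b)).norm = (β (x a)).norm := by omega
  have h1 := pot1_T β hne
  have h1' : pot1 (β * T a b) = pot1 β := by omega
  have h2 := (hβ a b hne).2 h1'
  have h3 := pot2_T β hne
  have hu := hβ.pre_left hab
  rw [hk] at hu
  exact half_change hv hk hu (by omega)

theorem IsMin.nielsen {β : AutF n} (hβ : IsMin β) (a b e : SL n) (hab : b ≠ neg a)
    (hbe : e ≠ neg b) :
    pre (β (x a))⁻¹ (β (x b)) + pre (β (x b))⁻¹ (β (x e)) < (β (x b)).norm := by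
  have h1 := hβ.pre_right hab
  have h2 := hβ.pre_left hbe
  by_contra hcon
  have hk12 : pre (β (x b))⁻¹ (β (x e)) = pre (β (x a))⁻¹ (β (x b)) := by omega
  have hN : (β (x b)).norm = 2 * pre (β (x a))⁻¹ (β (x b)) := by omega
  have hself := pre_inv_self (aut_x_ne_one β b)
  have hab1 : a.1 ≠ b.1 := by
    intro h
    rcases eq_or_neg h with rfl | rfl
    · omega
    · exact hab (neg_neg b).symm
  have hbe1 : e.1 ≠ b.1 := by
    intro h
    rcases eq_or_neg h with rfl | rfl
    · omega
    · exact hbe rfl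
  have A := tie_key hβ a b hab1 hab _ hN rfl
  have B := tie_key hβ (neg e) (neg b) hbe1 (by rw [neg_neg]; exact fun h => hbe h.symm)
    (pre (β (x a))⁻¹ (β (x b)))
    (by rw [x_neg, map_inv, FreeGroup.norm_inv_eq]; exact hN)
    (by rw [x_neg, x_neg, map_inv, map_inv, inv_inv, pre_comm]; exact hk12)
  rw [x_neg, map_inv, inv_inv] at B
  have hlen : (β (x b)).toWord.length = (β (x b)).norm := rfl
  have hlen' : (β (x b))⁻¹.toWord.length = (β (x b)).norm := by
    rw [← FreeGroup.norm_inv_eq]; rfl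
  have heq := code_inj (l := (β (x b)).toWord.take (pre (β (x a))⁻¹ (β (x b))))
    (l' := (β (x b))⁻¹.toWord.take (pre (β (x a))⁻¹ (β (x b))))
    (by rw [List.length_take, List.length_take, hlen, hlen']) (le_antisymm A B)
  have hle := le_pre (g := (β (x b))⁻¹) (h := β (x b))
    (k := pre (β (x a))⁻¹ (β (x b))) (by rw [FreeGroup.norm_inv_eq]; omega) (by omega) heq.symm
  omega

end OutF
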