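import Pool.Agent.Lib.OutF.Len
import Pool.Agent.Lib.OutF.Tie

set_option autoImplicit false

/-!
MODULE Nielsen (about 130 lines). Nielsen's theorem: `Aut F_n` is generated by the transvections and the signed
permutations.

PROOF. `exists_min`: among the elements `ν ∈ N` choose one for which `(pot1 (α * ν), pot2 (α * ν))` is minimal for the lexicographic
order (`WellFounded.has_min` for `Prod.Lex`, or twice `Nat.find`). `α * ν * T a b = α * (ν * T a b)`, `ν * T a b ∈ N`.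
`mem_range_sp`: for every `a` choose `τ a` with `α (x a) = x (τ a)`. `τ` is injective (`x_inj`, `α` injective), hence bijective
(`SL n` is finite): `Equiv.ofBijective`; `τ (neg a) = neg (τ a)` because `x (neg a) = (x a)⁻¹` (`x_neg`, `x_inj`). So
`α = sp τ` by `aut_ext` and `sp_x`.
`nielsen`: let `α` be given, `ν ∈ N` from `exists_min`, `β = α * ν`. `IsMin.nielsen` and `norm_le`: `w.norm ≤ (β w).norm` for all
`w`. For a letter `a` put `w = β⁻¹ (x a)`: `w.norm ≤ 1` (`norm_x`), `w ≠ 1`, so `w.toWord = [c]` and `w = x c`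
(`FreeGroup.mk_toWord`). By `mem_range_sp` `β⁻¹ ∈ N`, so `β ∈ N` and `α = β * ν⁻¹ ∈ N`.
-/

namespace OutF

variable {n : ℕ}

theorem exists_min (α : AutF n) (N : Subgroup (AutF n))
    (hT : ∀ a b : SL n, a.1 ≠ b.1 → T a b ∈ N) : ∃ ν ∈ N, IsMin (α * ν) := by
  classical
  let S : Set (ℕ ×ₗ ℕ) := {q | ∃ ν ∈ N, q = toLex (pot1 (α * ν), pot2 (α * ν))}
  have hS : S.Nonempty := ⟨_, 1, N.one_mem, rfl⟩
  obtain ⟨q, ⟨ν, hν, rfl⟩, hmin⟩ := WellFounded.has_min (wellFounded_lt (α := ℕ ×ₗ ℕ)) S hS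
  refine ⟨ν, hν, ?_⟩
  intro a b hab
  have h1 := hmin (toLex (pot1 (α * (ν * T a b)), pot2 (α * (ν * T a b))))
    ⟨ν * T a b, N.mul_mem hν (hT a b hab), rfl⟩
  rw [← mul_assoc, not_lt, Prod.Lex.le_iff] at h1
  simp only [ofLex_toLex] at h1
  rcases h1 with h2 | ⟨h2, h3⟩
  · exact ⟨h2.le, fun h => absurd h h2.ne'⟩
  · exact ⟨h2.le, fun _ => h3⟩

theorem mem_range_sp {α : AutF n} (h : ∀ a : SL n, ∃ c : SL n, α (x a) = x c) :
    ∃ σ : SP n, α = sp σ := by
  classical
  choose τ hτ using h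
  have hinj : Function.Injective τ := by
    intro a b hab
    have h1 : α (x a) = α (x b) := by rw [hτ, hτ, hab]
    exact x_inj (α.injective h1)
  have hbij : Function.Bijective τ := Finite.injective_iff_bijective.mp hinj
  have hneg : ∀ a, τ (neg a) = neg (τ a) := by
    intro a
    apply x_inj
    rw [← hτ, x_neg, map_inv, hτ, x_neg]
  let σ : SP n := ⟨Equiv.ofBijective τ hbij, fun a => hneg a⟩
  refine ⟨σ, aut_ext fun i => ⟨true, ?_⟩⟩
  rw [sp_x, hτ]
  rfl

theorem nielsen (N : Subgroup (AutF n)) (hT : ∀ a b : SL n, a.1 ≠ b.1 → T a b ∈ N)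
    (hS : ∀ σ : SP n, sp σ ∈ N) : N = ⊤ := by
  rw [Subgroup.eq_top_iff']
  intro α
  obtain ⟨ν, hν, hmin⟩ := exists_min α N hT
  have hlen : ∀ w : FreeGroup (Fin n), w.norm ≤ ((α * ν) w).norm :=
    norm_le (fun a b e hab hbe => hmin.nielsen a b e hab hbe)
  have hinv : ∀ a : SL n, ∃ c : SL n, (α * ν)⁻¹ (x a) = x c := by
    intro a
    set w := (α * ν)⁻¹ (x a) with hw
    have h1 : (α * ν) w = x a := by
      rw [hw, ← MulAut.mul_apply, mul_inv_cancel, MulAut.one_apply]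
    have h2 := hlen w
    rw [h1, norm_x] at h2
    have h3 : w ≠ 1 := by
      intro h4
      rw [h4, map_one] at h1
      have h5 := norm_x a
      rw [← h1, FreeGroup.norm_one] at h5
      omega
    have h4 : w.toWord.length = 1 := by
      have h5 : w.norm ≠ 0 := fun h6 => h3 (FreeGroup.norm_eq_zero.mp h6)
      have h6 : w.norm = w.toWord.length := rfl
      omega
    obtain ⟨c, hc⟩ := List.length_eq_one_iff.mp h4
    refine ⟨c, ?_⟩
    rw [← FreeGroup.mk_toWord (x := w), hc]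
    rfl
  obtain ⟨σ, hσ⟩ := mem_range_sp hinv
  have h1 : (α * ν)⁻¹ ∈ N := by
    rw [hσ]
    exact hS σ
  have h2 := N.mul_mem (N.inv_mem h1) (N.inv_mem hν)
  rw [inv_inv, mul_inv_cancel_right] at h2
  exact h2

end OutF
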