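import Pool.Agent.Lib.OutF.RelT

set_option autoImplicit false

/-!
MODULE WGen (about 150 lines). The elements `gen m k` generate all signed permutations and all transvections.

PROOF. Let `N = Subgroup.closure (gen m '' (Finset.range (m + 2)))`, `n = m + 1`.
(1) `sp (lp e) ∈ N` for every `e : Equiv.Perm (Fin (m + 1))`: `Equiv.Perm.mclosure_swap_castSucc_succ` (the adjacent transpositions
generate the monoid of all permutations): the preimage of `N` under `sp.comp lp` contains all `Equiv.swap i.castSucc i.succ`
(`gen m (i + 1)`, `i + 1 ≤ m`).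
(2) `sp (li i) ∈ N`: `gen m (m + 1) = sp (li last)`, and `li i = lp (swap i last) * li last * (lp (swap i last))⁻¹` (ext: check on
`a` with `a.1 = i` (`li_self`) and `a.1 ≠ i` (`li_other`)).
(3) `sp σ ∈ N` for all `σ : SP (m + 1)`: let `e` be the induced permutation of the letters, `e i = (σ (i, true)).1` (injective by
`sp_fst_ne`). Then `ρ = (lp e)⁻¹ * σ` satisfies `(ρ a).1 = a.1` for all `a`. Show by induction on `k` (or on the finset of the
letters `i` with `ρ (i, true) = (i, false)`) that every `ρ ∈ SP n` with `(ρ a).1 = a.1` is in the preimage of `N`: if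
`ρ (i, true) = (i, false)` replace `ρ` by `ρ * li i`, which has fewer such letters; if there are none, `ρ = 1`.
(4) `T a b ∈ N` for `a.1 ≠ b.1`: there is `σ : SP n` with `σ (last, true) = a`, `σ (0, true) = b` (`0 ≠ last` because `1 ≤ m`): a
permutation `e` of `Fin (m + 1)` with `e last = a.1`, `e 0 = b.1` (product of two swaps) followed by the inversions `li a.1`, `li b.1` if
the signs are `false`. `sp_T`: `T a b = sp σ * gen m 0 * (sp σ)⁻¹`.
-/

namespace OutF

variable {m : ℕ}

private theorem gen_mem {k : ℕ} (hk : k < m + 2) :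
    gen m k ∈ Subgroup.closure (gen m '' (Finset.range (m + 2) : Set ℕ)) :=
  Subgroup.subset_closure ⟨k, by simpa using hk, rfl⟩

private theorem lp_mem (e : Equiv.Perm (Fin (m + 1))) :
    sp (lp e) ∈ Subgroup.closure (gen m '' (Finset.range (m + 2) : Set ℕ)) := by
  have h : Submonoid.closure (Set.range fun i : Fin m => Equiv.swap i.castSucc i.succ) ≤
      ((Subgroup.closure (gen m '' (Finset.range (m + 2) : Set ℕ))).comap
        ((sp (n := m + 1)).comp lp)).toSubmonoid := by
    rw [Submonoid.closure_le]
    rintro _ ⟨i, rfl⟩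
    have h1 := gen_mem (m := m) (k := (i : ℕ) + 1) (by omega)
    rw [gen, if_neg (by omega), dif_pos (by omega)] at h1
    exact h1
  rw [Equiv.Perm.mclosure_swap_castSucc_succ] at h
  exact h (Submonoid.mem_top e)

private theorem li_comm {n : ℕ} (i j : Fin n) :
    li i * lp (Equiv.swap i j) = lp (Equiv.swap i j) * li j := by
  refine Subtype.ext (Equiv.ext fun a => ?_)
  change (li i).1 ((lp (Equiv.swap i j)).1 a) = (lp (Equiv.swap i j)).1 ((li j).1 a)
  by_cases ha : a.1 = j
  · subst ha
    rw [li_self, lp_apply, lp_apply]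
    have h := li_self ((Equiv.swap i a.1) a.1, a.2)
    simp only [Equiv.swap_apply_right] at h ⊢
    rw [h]
    simp [neg]
  · rw [li_other ha]
    refine li_other ?_
    rw [lp_apply]
    intro h
    apply ha
    have h2 := congrArg (Equiv.swap i j) h
    simpa using h2

private theorem li_mem (i : Fin (m + 1)) :
    sp (li i) ∈ Subgroup.closure (gen m '' (Finset.range (m + 2) : Set ℕ)) := by
  have h0 : sp (li (Fin.last m)) ∈ Subgroup.closure (gen m '' (Finset.range (m + 2) : Set ℕ)) := by
    have h1 := gen_mem (m := m) (k := m + 1) (by omega)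
    rw [gen, if_neg (by omega), dif_neg (by omega)] at h1
    exact h1
  have h2 : li i = lp (Equiv.swap i (Fin.last m)) * li (Fin.last m) *
      (lp (Equiv.swap i (Fin.last m)))⁻¹ := by
    rw [← li_comm, mul_inv_cancel_right]
  rw [h2, map_mul, map_mul, map_inv]
  exact mul_mem (mul_mem (lp_mem _) h0) (inv_mem (lp_mem _))

private theorem sign_mem (s : Finset (Fin (m + 1))) : ∀ ρ : SP (m + 1), (∀ a, (ρ.1 a).1 = a.1) →
    (∀ i, i ∉ s → ρ.1 (i, true) = (i, true)) →
    sp ρ ∈ Subgroup.closure (gen m '' (Finset.range (m + 2) : Set ℕ)) := by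
  induction s using Finset.induction_on with
  | empty =>
    intro ρ _ h2
    have h3 : ρ = 1 := by
      refine Subtype.ext (Equiv.ext fun a => ?_)
      obtain ⟨i, t⟩ := a
      cases t
      · have h4 := ρ.2 (i, true)
        rw [h2 i (by simp)] at h4
        exact h4
      · exact h2 i (by simp)
    rw [h3, map_one]
    exact one_mem _
  | insert i s hi ih =>
    intro ρ h1 h2
    by_cases h3 : ρ.1 (i, true) = (i, true)
    · refine ih ρ h1 fun j hj => ?_
      by_cases hji : j = i
      · rw [hji]; exact h3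
      · exact h2 j (by simp [hji, hj])
    · have h4 : sp (ρ * li i) ∈
          Subgroup.closure (gen m '' (Finset.range (m + 2) : Set ℕ)) := by
        refine ih (ρ * li i) (fun a => ?_) fun j hj => ?_
        · change (ρ.1 ((li i).1 a)).1 = a.1
          rw [h1]
          by_cases ha : a.1 = i
          · subst ha
            rw [li_self, neg_fst]
          · rw [li_other ha]
        · change ρ.1 ((li i).1 (j, true)) = (j, true)
          by_cases hji : j = i
          · subst hji
            have h5 := li_self ((j, true) : SL (m + 1))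
            simp only at h5
            rw [h5, ρ.2]
            rcases eq_or_neg (h1 (j, true)) with h6 | h6
            · exact absurd h6 h3
            · rw [h6, neg_neg]
          · rw [li_other (by exact hji)]
            exact h2 j (by simp [hji, hj])
      have h5 : ρ = ρ * li i * (li i)⁻¹ := by rw [mul_inv_cancel_right]
      rw [h5, map_mul, map_inv]
      exact mul_mem h4 (inv_mem (li_mem i))

theorem sp_mem_closure (σ : SP (m + 1)) :
    sp σ ∈ Subgroup.closure (gen m '' (Finset.range (m + 2) : Set ℕ)) := by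
  let f : Fin (m + 1) → Fin (m + 1) := fun i => (σ.1 (i, true)).1
  have hf : Function.Injective f := by
    intro i j hij
    by_contra hne
    exact sp_fst_ne σ (a := (i, true)) (b := (j, true)) hne hij
  let e : Equiv.Perm (Fin (m + 1)) := Equiv.ofBijective f (Finite.injective_iff_bijective.1 hf)
  have he : ∀ a : SL (m + 1), (σ.1 a).1 = e a.1 := by
    intro a
    exact sp_fst σ (a := a) (b := (a.1, true)) rfl
  have h1 : sp ((lp e)⁻¹ * σ) ∈ Subgroup.closure (gen m '' (Finset.range (m + 2) : Set ℕ)) := by
    refine sign_mem Finset.univ _ (fun a => ?_) fun i hi => absurd (Finset.mem_univ i) hi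
    have h2 : (lp e)⁻¹ = lp e⁻¹ := (map_inv lp e).symm
    rw [h2]
    change ((lp e⁻¹).1 (σ.1 a)).1 = a.1
    rw [lp_apply]
    change e⁻¹ (σ.1 a).1 = a.1
    rw [he]
    exact e.symm_apply_apply _
  have h3 : σ = lp e * ((lp e)⁻¹ * σ) := by rw [mul_inv_cancel_left]
  rw [h3, map_mul]
  exact mul_mem (lp_mem e) h1

theorem T_mem_closure (hm : 1 ≤ m) {a b : SL (m + 1)} (h : a.1 ≠ b.1) :
    T a b ∈ Subgroup.closure (gen m '' (Finset.range (m + 2) : Set ℕ)) := by
  have hl0 : (0 : Fin (m + 1)) ≠ Fin.last m := by
    intro h0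
    have := congrArg Fin.val h0
    simp at this
    omega
  -- a permutation of the unsigned letters
  obtain ⟨e, he1, he2⟩ : ∃ e : Equiv.Perm (Fin (m + 1)), e (Fin.last m) = a.1 ∧ e 0 = b.1 := by
    let e1 : Equiv.Perm (Fin (m + 1)) := Equiv.swap (Fin.last m) a.1
    refine ⟨Equiv.swap (e1 0) b.1 * e1, ?_, ?_⟩
    · rw [Equiv.Perm.mul_apply]
      have h1 : e1 (Fin.last m) = a.1 := Equiv.swap_apply_left _ _
      rw [h1]
      refine Equiv.swap_apply_of_ne_of_ne ?_ h
      rw [← h1]
      intro h2
      exact hl0 (e1.injective h2).symm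
    · rw [Equiv.Perm.mul_apply]
      exact Equiv.swap_apply_left _ _
  have key : ∀ c : Fin (m + 1), ∀ s : Bool, ∃ τ : SP (m + 1), τ.1 (c, true) = (c, s) ∧
      ∀ d : SL (m + 1), d.1 ≠ c → τ.1 d = d := by
    intro c s
    cases s
    · exact ⟨li c, li_self (c, true), fun d hd => li_other hd⟩
    · exact ⟨1, rfl, fun d _ => rfl⟩
  obtain ⟨τ, hτ1, hτ2⟩ := key a.1 a.2
  obtain ⟨υ, hυ1, hυ2⟩ := key b.1 b.2
  have h1 : (τ * υ * lp e).1 (Fin.last m, true) = a := by
    change τ.1 (υ.1 ((lp e).1 (Fin.last m, true))) = a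
    rw [lp_apply]
    simp only
    rw [he1, hυ2 _ (by exact h), hτ1]
  have h2 : (τ * υ * lp e).1 (0, true) = b := by
    change τ.1 (υ.1 ((lp e).1 (0, true))) = b
    rw [lp_apply]
    simp only
    rw [he2, hυ1, hτ2 _ (by exact h.symm)]
  have h3 := sp_T (τ * υ * lp e) (a := (Fin.last m, true)) (b := (0, true)) (by exact hl0.symm)
  rw [h1, h2] at h3
  rw [← h3]
  have h4 := gen_mem (m := m) (k := 0) (by omega)
  rw [gen, if_pos rfl] at h4
  exact mul_mem (mul_mem (sp_mem_closure _) h4) (inv_mem (sp_mem_closure _))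

end OutF
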