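import Pool.Agent.Lib.OutF.Helly
import Pool.Agent.Lib.OutF.Nielsen
import Pool.Agent.Lib.OutF.WGen
import Pool.Agent.Lib.MP_985a2b_al.Last

set_option autoImplicit false

/-!
MODULE Final. The theorem.
-/

namespace OutF

open MP985a

universe u

private theorem gen_closure {m : ℕ} (hm : 1 ≤ m) :
    Subgroup.closure (gen m '' (Finset.range (m + 2) : Set ℕ)) = ⊤ :=
  nielsen _ (fun _ _ h => T_mem_closure hm h) (fun σ => sp_mem_closure σ)

theorem aut_fixed {n : ℕ} (hn : 4 ≤ n) (X : Type u) [MetricSpace X] [CompleteSpace X] [Nonempty X]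
    (hX : CAT0 X) {d : ℕ} (hd : d + 1 < n) (hdim : CovDimLE X d)
    [MulAction (MulAut (FreeGroup (Fin n))) X] [IsIsometricSMul (MulAut (FreeGroup (Fin n))) X] :
    ∃ p : X, ∀ γ : MulAut (FreeGroup (Fin n)), γ • p = p := by
  obtain ⟨m, rfl⟩ : ∃ m, n = m + 1 := ⟨n - 1, by omega⟩
  have hcn := hX.isCAT0.cn
  have hm : 3 ≤ m := by omega
  have hd' : d < m := by omega
  refine fix_of_AE (G := AutF (m + 1)) (gen m '' (Finset.range (m + 2) : Set ℕ))
    ((Finset.finite_toSet _).image _) (gen_closure (by omega)) d ?_ X hcn (CovDimLE.ess hcn hdim)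
  intro Y _ _ _ _ _ hY hEY
  exact AE_gen hY hEY hm hd'

/-- The class map as a homomorphism. -/
private def mkHom (n : ℕ) : MulAut (FreeGroup (Fin n)) →* OutG (FreeGroup (Fin n)) where
  toFun := OutG.mk
  map_one' := rfl
  map_mul' _ _ := rfl

theorem out_fixed {n : ℕ} (hn : 4 ≤ n) (X : Type u) [MetricSpace X] [CompleteSpace X] [Nonempty X]
    (hX : CAT0 X) {d : ℕ} (hd : d + 1 < n) (hdim : CovDimLE X d)
    [MulAction (OutG (FreeGroup (Fin n))) X] [IsIsometricSMul (OutG (FreeGroup (Fin n))) X] :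
    ∃ p : X, ∀ γ : OutG (FreeGroup (Fin n)), γ • p = p := by
  let _ : MulAction (MulAut (FreeGroup (Fin n))) X := MulAction.compHom X (mkHom n)
  have : IsIsometricSMul (MulAut (FreeGroup (Fin n))) X :=
    ⟨fun γ => isometry_smul X (mkHom n γ)⟩
  obtain ⟨p, hp⟩ := aut_fixed hn X hX hd hdim
  refine ⟨p, fun γ => ?_⟩
  obtain ⟨α, rfl⟩ : ∃ α, mkHom n α = γ := QuotientGroup.mk_surjective γ
  exact hp α

end OutF
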