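import Pool.Agent.Lib.OutF.Par

set_option autoImplicit false

/-!
MODULE Helly (about 130 lines). The generators `gen m 0, ..., gen m (m + 1)` of `Aut F_(m+1)` have common almost fixed
points if `d < m`.

PROOF. `gen_mem_W`: for `k ≥ 1` the element `gen m k` is `sp _`. `gen_mem_HH`: `1 ≤ j`, `k ≠ 0`, `k ≠ j`, `j ≤ m`: if `k ≤ m`,
`gen m k = sp (lp (swap (k-1) k))`, and the exchange of the letters `k - 1` and `k` preserves `{i | i < j}` because not
`k - 1 < j ≤ k`; if `k > m`: `gen m k = sp (li last)` preserves all unsigned letters. `gen_zero_mem`: `gen m 0 = T (last, true)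
(0, true)`, `0 < j ≤ m`.
`small`: if `S ⊆ Finset.range (m + 2)` misses some `i ≤ m`, then AE of `gen m '' S`: `i = 0`: it is contained in the range of
`sp`, `AE_W`; `i = j ≥ 1`: contained in `SS (m+1) j ∪ HH (m+1) j`, `AE_par` (`AE.mono`).
`AE_gen1`: `helly_induct` with `N = 1`, `K = m`, `f = fun _ => 1`, `F = range (m + 1)`: a subset of at most `m` elements
misses some `i ≤ m` (`small`). (`hcomm` is void: `t ≠ t'` in `Fin 1` is impossible.)
`AE_gen`: `helly_induct` with `N = 1`, `K = m + 1`, `F = range (m + 2)`: a subset of at most `m + 1` elements misses some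
`i ≤ m + 1`; if `i ≤ m` use `small`, if `i = m + 1` it is contained in `range (m + 1)`, use `AE_gen1`.
-/

namespace OutF

open MP985a

variable {m : ℕ} {X : Type*} [MetricSpace X] [CompleteSpace X] [Nonempty X]
  [MulAction (AutF (m + 1)) X] [IsIsometricSMul (AutF (m + 1)) X]

private lemma gen_mem_W {m k : ℕ} (hk : k ≠ 0) :
    gen m k ∈ (((sp : SP (m + 1) →* AutF (m + 1)).range : Subgroup (AutF (m + 1))) :
      Set (AutF (m + 1))) := by
  unfold gen
  rw [if_neg hk]
  split_ifs with h
  · exact ⟨_, rfl⟩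
  · exact ⟨_, rfl⟩

private lemma lp_mem_HP {n j : ℕ} {u v : Fin n} (h : (u : ℕ) < j ↔ (v : ℕ) < j) :
    lp (Equiv.swap u v) ∈ HP n j := by
  intro a
  rw [lp_apply]
  simp only
  by_cases h1 : a.1 = u
  · rw [h1, Equiv.swap_apply_left]
    exact h.symm
  · by_cases h2 : a.1 = v
    · rw [h2, Equiv.swap_apply_right]
      exact h
    · rw [Equiv.swap_apply_of_ne_of_ne h1 h2]

private lemma li_mem_HP {n j : ℕ} (i : Fin n) : li i ∈ HP n j := by
  intro a
  by_cases h1 : a.1 = i
  · subst h1
    rw [li_self]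
    rfl
  · rw [li_other h1]

private lemma gen_mem_HH {m k j : ℕ} (hk : k ≠ 0) (hkj : k ≠ j) :
    gen m k ∈ HH (m + 1) j := by
  unfold gen HH
  rw [if_neg hk]
  split_ifs with h
  · refine Subgroup.mem_map_of_mem _ (lp_mem_HP ?_)
    simp only
    omega
  · exact Subgroup.mem_map_of_mem _ (li_mem_HP _)

private lemma gen_zero_mem {m j : ℕ} (hj : 1 ≤ j) (hjm : j ≤ m) : gen m 0 ∈ SS (m + 1) j := by
  refine ⟨(Fin.last m, true), (0, true), ?_, ?_, ?_⟩
  · simp only [Fin.val_zero]
    omega
  · simp only [Fin.val_last]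
    exact hjm
  · simp [gen]

private lemma small (hX : CN X) {d : ℕ} (hE : Ess X d) (hm : 3 ≤ m) (hd : d < m)
    (S : Finset ℕ) (i : ℕ) (hi : i ≤ m) (hiS : i ∉ S) :
    AE X (gen m '' (S : Set ℕ)) := by
  rcases Nat.eq_zero_or_pos i with h0 | h0
  · subst h0
    refine (AE_W hX).mono ?_
    rintro _ ⟨k, hk, rfl⟩
    refine gen_mem_W ?_
    rintro rfl
    exact hiS hk
  · refine (AE_par hX hE (by omega) (by omega) (j := i)).mono ?_
    rintro _ ⟨k, hk, rfl⟩
    rcases Nat.eq_zero_or_pos k with h1 | h1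
    · subst h1
      exact Or.inl (gen_zero_mem h0 hi)
    · refine Or.inr (gen_mem_HH (by omega) ?_)
      rintro rfl
      exact hiS hk

private lemma exists_miss {N : ℕ} (S : Finset ℕ) (hS : S.card ≤ N) :
    ∃ i ≤ N, i ∉ S := by
  by_contra hc
  push Not at hc
  have h1 : Finset.range (N + 1) ⊆ S := by
    intro i hi
    exact hc i (by rw [Finset.mem_range] at hi; omega)
  have h2 := Finset.card_le_card h1
  rw [Finset.card_range] at h2
  omega

private lemma AE_gen1 (hX : CN X) {d : ℕ} (hE : Ess X d) (hm : 3 ≤ m) (hd : d < m) :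
    AE X (gen m '' (Finset.range (m + 1) : Set ℕ)) := by
  refine helly_induct hX hE (N := 1) (K := m) (by omega) (gen m) (Finset.range (m + 1))
    (fun _ => 1) ?_ ?_
  · intro t t' htt
    exact absurd (Subsingleton.elim t t') htt
  · intro S _ hc
    obtain ⟨i, hi, hiS⟩ := exists_miss S hc
    exact small hX hE hm hd S i hi hiS

theorem AE_gen (hX : CN X) {d : ℕ} (hE : Ess X d) (hm : 3 ≤ m) (hd : d < m) :
    AE X (gen m '' (Finset.range (m + 2) : Set ℕ)) := by
  refine helly_induct hX hE (N := 1) (K := m + 1) (by omega) (gen m) (Finset.range (m + 2))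
    (fun _ => 1) ?_ ?_
  · intro t t' htt
    exact absurd (Subsingleton.elim t t') htt
  · intro S hS hc
    obtain ⟨i, hi, hiS⟩ := exists_miss S hc
    rcases Nat.lt_or_ge i (m + 1) with h1 | h1
    · exact small hX hE hm hd S i (by omega) hiS
    · have hi1 : i = m + 1 := by omega
      subst hi1
      refine (AE_gen1 hX hE hm hd).mono ?_
      refine Set.image_mono ?_
      intro k hk
      have h2 : k ∈ Finset.range (m + 2) := hS hk
      have h3 : k ≠ m + 1 := by
        rintro rfl
        exact hiS hk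
      rw [Finset.mem_range] at h2
      rw [Finset.mem_coe, Finset.mem_range]
      omega

end OutF
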