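import Pool.Agent.Lib.OutF.Pre

set_option autoImplicit false

/-!
MODULE Len (about 110 lines). The length lemma of Nielsen.

PROOF. Write `u a = β (x a)` (`u (neg a) = (u a)⁻¹`, `x_neg`), `c a b = pre (u a)⁻¹ (u b)`. Let `w` be a reduced word
(`FreeGroup.IsReduced`), by `List.reverseRecOn` (or induction on the length): for `l` non-empty and reduced with last letter
`a` and `z = β (mk l)`: for all `b ≠ neg a`: `pre z⁻¹ (u b) = c a b` and `l.length + c a b ≤ z.norm`.
`l = [a]`: `z = u a`; `hN a a b` (`a ≠ neg a`) gives `c a b < (u a).norm`.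
Step from `l` (last letter `a`) to `l ++ [b]`, `b ≠ neg a` because it is reduced: `z' = z * u b`. By `norm_inv_mul z⁻¹ (u b)`:
`z'.norm + 2 * c a b = z.norm + (u b).norm` (`FreeGroup.norm_inv_eq`). By `norm_inv_mul z'⁻¹ (u b)⁻¹` (`z' * (u b)⁻¹ = z`):
`z.norm + 2 * pre z'⁻¹ (u b)⁻¹ = z'.norm + (u b).norm`; so `pre z'⁻¹ (u b)⁻¹ = (u b).norm - c a b`. Let `e ≠ neg b`.
`hN a b e`: `c a b + c b e < (u b).norm`, so `c b e = pre (u b)⁻¹ (u e) < pre z'⁻¹ (u b)⁻¹`; by `pre_min` (twice, with `pre_comm`)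
`pre z'⁻¹ (u e) = c b e`. Finally `z'.norm - c b e = z.norm - c a b + ((u b).norm - c a b - c b e) ≥ l.length + 1`.
`norm_le`: `w = mk w.toWord`; if `w.toWord` is empty trivial, otherwise use `b = a` (`a ≠ neg a`).
-/

namespace OutF

variable {n : ℕ}

private theorem len_key {β : AutF n}
    (hN : ∀ a b e : SL n, b ≠ neg a → e ≠ neg b →
      pre (β (x a))⁻¹ (β (x b)) + pre (β (x b))⁻¹ (β (x e)) < (β (x b)).norm)
    (l : List (SL n)) : ∀ a : SL n, FreeGroup.IsReduced (l ++ [a]) → ∀ b, b ≠ neg a →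
      pre (β (FreeGroup.mk (l ++ [a])))⁻¹ (β (x b)) = pre (β (x a))⁻¹ (β (x b)) ∧
        l.length + 1 + pre (β (x a))⁻¹ (β (x b)) ≤ (β (FreeGroup.mk (l ++ [a]))).norm := by
  induction l using List.reverseRecOn with
  | nil =>
    intro a _ b hb
    have h1 := hN a a b (neg_ne a).symm hb
    refine ⟨rfl, ?_⟩
    have h2 : (FreeGroup.mk ([] ++ [a]) : FreeGroup (Fin n)) = x a := rfl
    rw [h2, List.length_nil]
    omega
  | append_singleton l a ih =>
    intro b hred e he
    have hred' := hred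
    unfold FreeGroup.IsReduced at hred'
    rw [List.isChain_append] at hred'
    obtain ⟨h1, -, h2⟩ := hred'
    have hba : b ≠ neg a := by
      intro h
      have h3 := h2 a (by simp) b (by simp) (by rw [h]; rfl)
      rw [h] at h3
      simp [neg] at h3
    obtain ⟨h3, h4⟩ := ih a h1 b hba
    have hz : β (FreeGroup.mk (l ++ [a] ++ [b])) = β (FreeGroup.mk (l ++ [a])) * β (x b) := by
      rw [← map_mul, x, FreeGroup.mul_mk]
    obtain ⟨z, hzz⟩ : ∃ z, z = β (FreeGroup.mk (l ++ [a])) := ⟨_, rfl⟩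
    rw [hz]
    rw [← hzz] at h3 h4 ⊢
    have h5 := norm_inv_mul z⁻¹ (β (x b))
    rw [inv_inv, FreeGroup.norm_inv_eq, h3] at h5
    have h6 := norm_inv_mul (z * β (x b))⁻¹ (β (x b))⁻¹
    rw [inv_inv, FreeGroup.norm_inv_eq, FreeGroup.norm_inv_eq, mul_inv_cancel_right] at h6
    have h7 := hN a b e hba he
    have h8 := pre_min (z * β (x b))⁻¹ (β (x b))⁻¹ (β (x e))
    have h9 := pre_min (β (x b))⁻¹ (z * β (x b))⁻¹ (β (x e))
    rw [pre_comm (β (x b))⁻¹ (z * β (x b))⁻¹] at h9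
    have h10 : (l ++ [a]).length = l.length + 1 := by simp
    rw [h10]
    constructor <;> omega

theorem norm_le {β : AutF n}
    (hN : ∀ a b e : SL n, b ≠ neg a → e ≠ neg b →
      pre (β (x a))⁻¹ (β (x b)) + pre (β (x b))⁻¹ (β (x e)) < (β (x b)).norm)
    (w : FreeGroup (Fin n)) : w.norm ≤ (β w).norm := by
  rcases List.eq_nil_or_concat w.toWord with h | ⟨l, a, h⟩
  · unfold FreeGroup.norm
    rw [h]
    exact Nat.zero_le _
  · rw [List.concat_eq_append] at h
    have h1 := len_key hN l a (by rw [← h]; exact FreeGroup.isReduced_toWord) a (neg_ne a).symm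
    rw [← h, FreeGroup.mk_toWord] at h1
    have h2 : w.norm = l.length + 1 := by
      unfold FreeGroup.norm
      rw [h]
      simp
    omega

end OutF
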