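import Pool.Agent.Lib.OutF.Star
import Pool.Agent.Lib.MP_985a2b_al.RComm
import Pool.Agent.Lib.MP_985a2b_al.RFin

set_option autoImplicit false

/-!
MODULE Par (about 110 lines). The sets `S_j ∪ H_j` and the finite group of signed permutations.

PROOF. `AE_SS`: enumerate the signed letters by `e : Fin (n * 2) ≃ SL n` (`Fintype.equivFinOfCardEq` or `finProdFinEquiv` ...). Put
`S i = {t | j ≤ (e i).1 ∧ ∃ b, b.1 < j ∧ t = T (e i) b}`. Each `S i` is AE: empty if `(e i).1 < j`; otherwise `AE_star` for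
`a = e i`, `B = {k | k < j}` and `AE.of_inv` (`T a (k, false) = (T a (k, true))⁻¹` by `T_neg`). For `i ≠ i'` the elements
commute (`T_comm`). `AE.iUnion_comm`, and `SS n j = ⋃ i, S i`.
`AE_par`: `AE.union_finite hX (AE_SS ..) (HH n j)`: for `α = sp σ`, `σ ∈ HP n j`: `sp_T`: `sp σ * T a b * (sp σ)⁻¹ =
T (σ a) (σ b) ∈ SS n j`.
`AE_W`: `AE.union_finite` for the empty set and `H = (sp : SP n →* AutF n).range`, finite (`Finite` of the range of a map from a
finite type).
-/

namespace OutF

open MP985a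

variable {n : ℕ} {X : Type*} [MetricSpace X] [CompleteSpace X] [Nonempty X]
  [MulAction (AutF n) X] [IsIsometricSMul (AutF n) X]

theorem AE_SS (hX : CN X) {d : ℕ} (hE : Ess X d) (hn : 4 ≤ n) (hd : d + 1 < n) {j : ℕ} :
    AE X (SS n j) := by
  classical
  have hcard : Fintype.card (SL n) = n * 2 := by
    rw [Fintype.card_prod, Fintype.card_fin, Fintype.card_bool]
  let e : Fin (n * 2) ≃ SL n := (Fintype.equivFinOfCardEq hcard).symm
  let S : Fin (n * 2) → Set (AutF n) := fun i =>
    {t | j ≤ ((e i).1 : ℕ) ∧ ∃ b : SL n, (b.1 : ℕ) < j ∧ t = T (e i) b}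
  have hS : ∀ i, AE X (S i) := by
    intro i
    by_cases hi : j ≤ ((e i).1 : ℕ)
    · let B : Finset (Fin n) := Finset.univ.filter fun k => (k : ℕ) < j
      have hB : (e i).1 ∉ B := by
        intro h
        have := (Finset.mem_filter.1 h).2
        omega
      refine AE.of_inv (AE_star hX hE hn hd (e i) B hB) ?_
      rintro t ⟨-, b, hb, rfl⟩
      have hne : (e i).1 ≠ b.1 := by
        intro h
        rw [h] at hi
        omega
      have hmem : b.1 ∈ (B : Set (Fin n)) := by
        simpa [B] using hb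
      obtain ⟨k, s⟩ := b
      cases s
      · right
        refine ⟨k, hmem, ?_⟩
        have h1 := T_neg (a := e i) (b := (k, false)) hne
        exact h1
      · left
        exact ⟨k, hmem, rfl⟩
    · have : S i = ∅ := by
        ext t
        simp only [S, Set.mem_setOf_eq, Set.mem_empty_iff_false, iff_false]
        intro h
        exact hi h.1
      rw [this]
      exact AE.empty
  have hcomm : ∀ i i', i ≠ i' → ∀ s ∈ S i, ∀ t ∈ S i', Commute s t := by
    rintro i i' hne s ⟨hi, b, hb, rfl⟩ t ⟨hi', b', hb', rfl⟩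
    apply T_comm
    · intro h; rw [h] at hi; omega
    · intro h; rw [h] at hi'; omega
    · intro h; exact hne (e.injective h)
    · intro h; rw [h] at hi; omega
    · intro h; rw [h] at hi'; omega
  have hU := AE.iUnion_comm hX S hS hcomm
  refine hU.mono ?_
  rintro t ⟨a, b, hb, ha, rfl⟩
  refine Set.mem_iUnion.2 ⟨e.symm a, ?_⟩
  refine ⟨?_, b, hb, ?_⟩
  · rw [Equiv.apply_symm_apply]; exact ha
  · rw [Equiv.apply_symm_apply]

theorem AE_par (hX : CN X) {d : ℕ} (hE : Ess X d) (hn : 4 ≤ n) (hd : d + 1 < n) {j : ℕ} :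
    AE X (SS n j ∪ (HH n j : Set (AutF n))) := by
  refine AE.union_finite hX (AE_SS hX hE hn hd) (HH n j) ?_
  rintro _ ⟨σ, hσ, rfl⟩ _ ⟨a, b, hb, ha, rfl⟩
  left
  have hne : a.1 ≠ b.1 := by
    intro h; rw [h] at ha; omega
  rw [sp_T σ hne]
  refine ⟨σ.1 a, σ.1 b, (hσ b).2 hb, ?_, rfl⟩
  by_contra h
  have := (hσ a).1 (not_le.1 h)
  omega

theorem AE_W (hX : CN X) : AE X (((sp : SP n →* AutF n).range : Subgroup (AutF n)) : Set (AutF n)) := by
  have : Finite ((sp : SP n →* AutF n).range : Subgroup (AutF n)) :=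
    (Set.finite_range (sp : SP n →* AutF n)).to_subtype
  refine (AE.union_finite hX (AE.empty : AE X (∅ : Set (AutF n)))
    ((sp : SP n →* AutF n).range : Subgroup (AutF n)) ?_).mono Set.subset_union_right
  intro a _ s hs
  exact absurd hs (Set.notMem_empty s)

end OutF
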