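import Pool.Agent.Lib.OutF.Defs

set_option autoImplicit false

/-!
MODULE Pre (about 200 lines). The length of the common prefix of two reduced words.

PROOF. Lists first: `lcp l l' = lcp l' l`, `lcp l l' ≤ l.length`, `lcp l l = l.length`,
`min (lcp l l') (lcp l' l'') ≤ lcp l l''` (induction on `l` generalizing the others), and
`∃ p r r', l = p ++ r ∧ l' = p ++ r' ∧ p.length = lcp l l' ∧ (r.head? and r'.head? are not the same some)`.
`norm_inv_mul`: write `g.toWord = p ++ r`, `h.toWord = p ++ r'`. `g⁻¹ * h = mk (invRev r ++ r')` and this word is reduced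
(`FreeGroup.IsReduced`, a chain condition: `invRev r`, `r'` are reduced, at the joint: the last letter of `invRev r` is the inverse of
the head of `r`, which is different from the head of `r'`). So `norm (g⁻¹ * h) = r.length + r'.length`.
(`FreeGroup.IsReduced.reduce_eq`, `FreeGroup.isReduced_toWord`, `FreeGroup.toWord_inv`, `FreeGroup.mk_toWord`.)
`take_pre`, `le_pre`: `k ≤ lcp l l' ↔ l.take k = l'.take k` if `k ≤ l.length` and `k ≤ l'.length`.
`pre_inv_self`: let `l = g.toWord`, `L = l.length ≥ 1`, so `g⁻¹.toWord = invRev l`, whose letter number `i` is the inverse of the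
letter number `L - 1 - i` of `l`. If `2 * pre g⁻¹ g ≥ L` then the letters number `i < (L + 1) / 2` of `l` and of `invRev l` are
equal: `l[i] = neg l[L - 1 - i]`. If `L` is odd take `i = (L - 1) / 2`: `l[i] = neg l[i]`, impossible. If `L` is even take
`i = L / 2 - 1`: `l[i] = neg l[i + 1]`, impossible in a reduced word.
(Note that `pre g⁻¹ g = 0` is not true in general.)
-/

namespace OutF

section lists

variable {α : Type*} [DecidableEq α]

private theorem lcp_comm (l l' : List α) : lcp l l' = lcp l' l := by
  induction l generalizing l' with
  | nil => cases l' <;> simp [lcp]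
  | cons a l ih =>
    cases l' with
    | nil => simp [lcp]
    | cons b l' =>
      by_cases h : a = b
      · subst h; simp [lcp, ih]
      · simp [lcp, h, Ne.symm h]

private theorem lcp_le (l l' : List α) : lcp l l' ≤ l.length := by
  induction l generalizing l' with
  | nil => simp [lcp]
  | cons a l ih =>
    cases l' with
    | nil => simp [lcp]
    | cons b l' =>
      by_cases h : a = b
      · subst h; simp [lcp, ih]
      · simp [lcp, h]

private theorem lcp_self (l : List α) : lcp l l = l.length := by
  induction l with
  | nil => simp [lcp]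
  | cons a l ih => simp [lcp, ih]

private theorem lcp_min (l l' l'' : List α) : min (lcp l l') (lcp l' l'') ≤ lcp l l'' := by
  induction l generalizing l' l'' with
  | nil => simp [lcp]
  | cons a l ih =>
    cases l' with
    | nil => simp [lcp]
    | cons b l' =>
      cases l'' with
      | nil => simp [lcp]
      | cons c l'' =>
        by_cases h : a = b
        · subst h
          by_cases h' : a = c
          · subst h'
            have := ih l' l''
            simp only [lcp, if_true]
            omega
          · simp [lcp, h']
        · simp [lcp, h]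

private theorem lcp_split (l l' : List α) : ∃ p r r', l = p ++ r ∧ l' = p ++ r' ∧
    p.length = lcp l l' ∧ ∀ a ∈ r.head?, ∀ b ∈ r'.head?, a ≠ b := by
  induction l generalizing l' with
  | nil => exact ⟨[], [], l', by simp, by simp, by simp [lcp], by simp⟩
  | cons a l ih =>
    cases l' with
    | nil => exact ⟨[], a :: l, [], by simp, by simp, by simp [lcp], by simp⟩
    | cons b l' =>
      by_cases h : a = b
      · subst h
        obtain ⟨p, r, r', h1, h2, h3, h4⟩ := ih l'
        exact ⟨a :: p, r, r', congrArg (List.cons a) h1, congrArg (List.cons a) h2,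
          by simp [lcp, h3], h4⟩
      · exact ⟨[], a :: l, b :: l', by simp, by simp, by simp [lcp, h], by simpa using h⟩

private theorem lcp_take {l l' : List α} {k : ℕ} (hk : k ≤ lcp l l') : l.take k = l'.take k := by
  obtain ⟨p, r, r', h1, h2, h3, -⟩ := lcp_split l l'
  rw [← h3] at hk
  rw [h1, h2, List.take_append_of_le_length hk, List.take_append_of_le_length hk]

private theorem le_lcp {l l' : List α} {k : ℕ} (h1 : k ≤ l.length) (h2 : k ≤ l'.length)
    (h : l.take k = l'.take k) : k ≤ lcp l l' := by
  induction k generalizing l l' with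
  | zero => omega
  | succ k ih =>
    cases l with
    | nil => simp at h1
    | cons a l =>
      cases l' with
      | nil => simp at h2
      | cons b l' =>
        simp only [List.take_succ_cons, List.cons.injEq] at h
        simp only [List.length_cons] at h1 h2
        have := ih (l := l) (l' := l') (by omega) (by omega) h.2
        rw [h.1]
        simp only [lcp, if_true]
        omega

end lists

variable {n : ℕ}

theorem pre_comm (g h : FreeGroup (Fin n)) : pre g h = pre h g := lcp_comm _ _

theorem pre_le (g h : FreeGroup (Fin n)) : pre g h ≤ g.norm := lcp_le _ _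

theorem pre_self (g : FreeGroup (Fin n)) : pre g g = g.norm := lcp_self _

theorem pre_min (g h k : FreeGroup (Fin n)) : min (pre g h) (pre h k) ≤ pre g k := lcp_min _ _ _

theorem take_pre {g h : FreeGroup (Fin n)} {k : ℕ} (hk : k ≤ pre g h) :
    g.toWord.take k = h.toWord.take k := lcp_take hk

theorem le_pre {g h : FreeGroup (Fin n)} {k : ℕ} (hg : k ≤ g.norm) (hh : k ≤ h.norm)
    (hk : g.toWord.take k = h.toWord.take k) : k ≤ pre g h := le_lcp hg hh hk

private theorem invRev_reduced {l : List (SL n)} (h : FreeGroup.IsReduced l) :
    FreeGroup.IsReduced (FreeGroup.invRev l) := by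
  have e : (FreeGroup.mk l).toWord = l := by rw [FreeGroup.toWord_mk, h.reduce_eq]
  have h2 : FreeGroup.IsReduced ((FreeGroup.mk l)⁻¹).toWord := FreeGroup.isReduced_toWord
  rwa [FreeGroup.toWord_inv, e] at h2

theorem norm_inv_mul (g h : FreeGroup (Fin n)) :
    (g⁻¹ * h).norm + 2 * pre g h = g.norm + h.norm := by
  obtain ⟨p, r, r', h1, h2, h3, h4⟩ := lcp_split g.toWord h.toWord
  have hg : FreeGroup.IsReduced (p ++ r) := by rw [← h1]; exact FreeGroup.isReduced_toWord
  have hh : FreeGroup.IsReduced (p ++ r') := by rw [← h2]; exact FreeGroup.isReduced_toWord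
  have hr : FreeGroup.IsReduced r := List.IsChain.suffix hg (List.suffix_append p r)
  have hr' : FreeGroup.IsReduced r' := List.IsChain.suffix hh (List.suffix_append p r')
  have e1 : g = FreeGroup.mk p * FreeGroup.mk r := by
    rw [FreeGroup.mul_mk, ← h1, FreeGroup.mk_toWord]
  have e2 : h = FreeGroup.mk p * FreeGroup.mk r' := by
    rw [FreeGroup.mul_mk, ← h2, FreeGroup.mk_toWord]
  have e3 : g⁻¹ * h = FreeGroup.mk (FreeGroup.invRev r ++ r') := by
    rw [← FreeGroup.mul_mk, ← FreeGroup.inv_mk, e1, e2]
    group
  have hred : FreeGroup.IsReduced (FreeGroup.invRev r ++ r') := by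
    unfold FreeGroup.IsReduced
    rw [List.isChain_append]
    refine ⟨invRev_reduced hr, hr', ?_⟩
    intro a ha b hb hab
    simp only [FreeGroup.invRev, List.getLast?_reverse, List.head?_map, Option.mem_def,
      Option.map_eq_some_iff] at ha
    obtain ⟨c, hc, rfl⟩ := ha
    have h5 := h4 c hc b hb
    simp only at hab ⊢
    by_contra h6
    apply h5
    refine Prod.ext hab ?_
    cases h7 : c.2 <;> cases h8 : b.2 <;> simp_all
  have e4 : (g⁻¹ * h).norm = r.length + r'.length := by
    rw [e3, FreeGroup.norm, FreeGroup.toWord_mk, hred.reduce_eq, List.length_append,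
      FreeGroup.invRev_length]
  have e5 : g.norm = p.length + r.length := by rw [FreeGroup.norm, h1, List.length_append]
  have e6 : h.norm = p.length + r'.length := by rw [FreeGroup.norm, h2, List.length_append]
  have e7 : pre g h = p.length := h3.symm
  omega

theorem pre_inv_self {g : FreeGroup (Fin n)} (hg : g ≠ 1) : 2 * pre g⁻¹ g < g.norm := by
  by_contra hcon
  have hL : g.norm ≤ 2 * pre g⁻¹ g := by omega
  have hpos : 0 < g.norm := by
    rw [Nat.pos_iff_ne_zero]
    intro h
    exact hg (FreeGroup.norm_eq_zero.1 h)
  have hk : (g.norm + 1) / 2 ≤ pre g⁻¹ g := by omega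
  have htake := take_pre hk
  rw [FreeGroup.toWord_inv] at htake
  have hlen : g.toWord.length = g.norm := rfl
  generalize g.norm = L at *
  have key : ∀ i, i < (L + 1) / 2 →
      (g.toWord[L - 1 - i]?).map (fun a : SL n => (a.1, !a.2)) = g.toWord[i]? := by
    intro i hi
    have h1 := congrArg (fun l : List (SL n) => l[i]?) htake
    simp only [List.getElem?_take, if_pos hi] at h1
    rw [← h1, FreeGroup.invRev, List.getElem?_reverse (by rw [List.length_map, hlen]; omega),
      List.getElem?_map, List.length_map, hlen]
  rcases Nat.even_or_odd' L with ⟨t, rfl | rfl⟩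
  · have h1 := key (t - 1) (by omega)
    have e : 2 * t - 1 - (t - 1) = t - 1 + 1 := by omega
    rw [e] at h1
    have h2 : t - 1 < g.toWord.length := by omega
    have h3 : t - 1 + 1 < g.toWord.length := by omega
    rw [List.getElem?_eq_getElem h2, List.getElem?_eq_getElem h3] at h1
    simp only [Option.map_some, Option.some.injEq] at h1
    have h4 : FreeGroup.IsReduced g.toWord := FreeGroup.isReduced_toWord
    unfold FreeGroup.IsReduced at h4
    rw [List.isChain_iff_getElem] at h4
    have h5 := h4 (t - 1) h3
    rw [← h1] at h5
    simp at h5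
  · have h1 := key t (by omega)
    have e : 2 * t + 1 - 1 - t = t := by omega
    rw [e] at h1
    have h2 : t < g.toWord.length := by omega
    rw [List.getElem?_eq_getElem h2] at h1
    simp only [Option.map_some, Option.some.injEq] at h1
    have h5 := congrArg Prod.snd h1
    simp at h5

end OutF
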