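import Pool.Agent.Lib.OutF.RelT
import Pool.Agent.Lib.OutF.Pre

set_option autoImplicit false

/-!
MODULE Pot (about 120 lines). How a transvection changes the potentials, and the first consequence of minimality.

PROOF. `(β * T a b) (x a) = β (x a) * β (x b)` (`MulAut.mul_apply`, `T_self`), `(β * T a b) (x c) = β (x c)` for
`c.1 ≠ a.1`. The sums `pot1`, `pot2` over `i : Fin n` differ only in the term `i = a.1`
(`Finset.sum_erase`/`Finset.add_sum_erase`), where `x (i, true)` is `x a` or `(x a)⁻¹ = x (neg a)`; `FreeGroup.norm_inv_eq` and the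
symmetry of the summand `half g + half g⁻¹` under `g ↦ g⁻¹`.
`IsMin.norm_left`: `pot1_T` and the definition of `IsMin`. `IsMin.norm_right`: apply it to `neg b`, `neg a`:
`β (x (neg b)) * β (x (neg a)) = (β (x a) * β (x b))⁻¹`.
`IsMin.pre_left`, `IsMin.pre_right`: if `a.1 ≠ b.1` from `norm_inv_mul (β (x a))⁻¹ (β (x b))`; if `a = b` (`b ≠ neg a`,
`eq_or_neg`) from `pre_inv_self` (`β (x a) ≠ 1` because `β` is injective and `x a ≠ 1`, `norm_x`).
`min_ne`: `β (x a) ≠ 1`.
-/

namespace OutF

variable {n : ℕ}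

private theorem sum_T (φ : FreeGroup (Fin n) → ℕ) (hφ : ∀ g, φ g⁻¹ = φ g) (β : AutF n)
    {a b : SL n} (h : a.1 ≠ b.1) :
    (∑ i : Fin n, φ ((β * T a b) (x (i, true)))) + φ (β (x a)) =
      (∑ i : Fin n, φ (β (x (i, true)))) + φ (β (x a) * β (x b)) := by
  have key : ∀ γ : AutF n, φ (γ (x (a.1, true))) = φ (γ (x a)) := by
    intro γ
    rcases eq_or_neg (a := (a.1, true)) (b := a) rfl with e | e
    · rw [e]
    · rw [e, x_neg, map_inv, hφ]
  have h1 : ∑ i ∈ Finset.univ.erase a.1, φ ((β * T a b) (x (i, true))) =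
      ∑ i ∈ Finset.univ.erase a.1, φ (β (x (i, true))) := by
    refine Finset.sum_congr rfl fun i hi => ?_
    rw [MulAut.mul_apply, T_other (Finset.ne_of_mem_erase hi)]
  rw [← Finset.add_sum_erase Finset.univ (fun i => φ ((β * T a b) (x (i, true))))
    (Finset.mem_univ a.1), ← Finset.add_sum_erase Finset.univ (fun i => φ (β (x (i, true))))
    (Finset.mem_univ a.1), h1]
  rw [key, key, MulAut.mul_apply, T_self h, map_mul]
  ring

theorem pot1_T (β : AutF n) {a b : SL n} (h : a.1 ≠ b.1) :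
    pot1 (β * T a b) + (β (x a)).norm = pot1 β + (β (x a) * β (x b)).norm :=
  sum_T (fun g => g.norm) (fun _ => FreeGroup.norm_inv_eq) β h

theorem pot2_T (β : AutF n) {a b : SL n} (h : a.1 ≠ b.1) :
    pot2 (β * T a b) + (half (β (x a)) + half (β (x a))⁻¹) =
      pot2 β + (half (β (x a) * β (x b)) + half (β (x a) * β (x b))⁻¹) :=
  sum_T (fun g => half g + half g⁻¹) (fun g => by rw [inv_inv, add_comm]) β h

theorem aut_x_ne_one (β : AutF n) (a : SL n) : β (x a) ≠ 1 := by
  intro h
  have h1 : x a = 1 := β.injective (by rw [h, map_one])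
  have h2 := norm_x a
  rw [h1, FreeGroup.norm_one] at h2
  exact absurd h2 (by norm_num)

theorem IsMin.norm_left {β : AutF n} (hβ : IsMin β) {a b : SL n} (h : a.1 ≠ b.1) :
    (β (x a)).norm ≤ (β (x a) * β (x b)).norm := by
  have h1 := (hβ a b h).1
  have h2 := pot1_T β h
  omega

theorem IsMin.norm_right {β : AutF n} (hβ : IsMin β) {a b : SL n} (h : a.1 ≠ b.1) :
    (β (x b)).norm ≤ (β (x a) * β (x b)).norm := by
  have h1 := hβ.norm_left (a := neg b) (b := neg a) (by simpa using h.symm)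
  rw [x_neg, x_neg, map_inv, map_inv, FreeGroup.norm_inv_eq, ← mul_inv_rev,
    FreeGroup.norm_inv_eq] at h1
  exact h1

theorem IsMin.pre_left {β : AutF n} (hβ : IsMin β) {a b : SL n} (h : b ≠ neg a) :
    2 * pre (β (x a))⁻¹ (β (x b)) ≤ (β (x a)).norm := by
  by_cases hab : a.1 = b.1
  · rcases eq_or_neg hab with e | e
    · subst e
      exact (pre_inv_self (aut_x_ne_one β a)).le
    · exact absurd (by rw [e, neg_neg]) h
  · have h1 := norm_inv_mul (β (x a))⁻¹ (β (x b))
    rw [inv_inv, FreeGroup.norm_inv_eq] at h1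
    have h2 := hβ.norm_right hab
    omega

theorem IsMin.pre_right {β : AutF n} (hβ : IsMin β) {a b : SL n} (h : b ≠ neg a) :
    2 * pre (β (x a))⁻¹ (β (x b)) ≤ (β (x b)).norm := by
  by_cases hab : a.1 = b.1
  · rcases eq_or_neg hab with e | e
    · subst e
      exact (pre_inv_self (aut_x_ne_one β a)).le
    · exact absurd (by rw [e, neg_neg]) h
  · have h1 := norm_inv_mul (β (x a))⁻¹ (β (x b))
    rw [inv_inv, FreeGroup.norm_inv_eq] at h1
    have h2 := hβ.norm_left hab
    omega

end OutF
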