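import Pool.Agent.Lib.OutF.RelT

set_option autoImplicit false

/-!
MODULE RelC. Inner automorphisms and transvections.
-/

namespace OutF

variable {n : ℕ}

theorem conj_mul (α : AutF n) (y : FreeGroup (Fin n)) :
    α * MulAut.conj y * α⁻¹ = MulAut.conj (α y) := by
  ext1 z
  have e : α (α⁻¹ z) = z := α.apply_symm_apply z
  rw [MulAut.mul_apply, MulAut.mul_apply, MulAut.conj_apply, MulAut.conj_apply, map_mul, map_mul,
    map_inv, e]

theorem conj_commute {α : AutF n} {y : FreeGroup (Fin n)} (h : α y = y) :
    Commute (MulAut.conj y) α := by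
  have h1 := conj_mul α y
  rw [h] at h1
  have h2 : α * MulAut.conj y = MulAut.conj y * α := mul_inv_eq_iff_eq_mul.1 h1
  exact h2.symm

private theorem phi_aux {a b : SL n} (h : a.1 ≠ b.1) (φ : AutF n → ℝ)
    (hφ : ∀ α β, Commute α (T a b) → Commute β (T a b) → φ (α * β) = φ α + φ β)
    (hs : ∀ s : SL n, s ≠ a → s.1 ≠ b.1 → φ (T s (neg b)) = 0) (A : Finset (SL n)) :
    (∀ c ∈ A, c.1 ≠ b.1) → a ∉ A → ∃ μ : AutF n, Commute μ (T a b) ∧ φ μ = 0 ∧
      μ (x b) = x b ∧ ∀ i, i ≠ b.1 → μ (x (i, true)) =
        (if (i, false) ∈ A then x b else 1) * x (i, true) *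
          (if (i, true) ∈ A then (x b)⁻¹ else 1) := by
  classical
  induction A using Finset.induction_on with
  | empty =>
    intro _ _
    refine ⟨1, Commute.one_left _, ?_, rfl, ?_⟩
    · have h1 := hφ 1 1 (Commute.one_left _) (Commute.one_left _)
      rw [mul_one] at h1
      linarith
    · intro i _
      simp
  | insert s A hsA ih =>
    intro hA ha
    obtain ⟨μ, hμ1, hμ2, hμ3, hμ4⟩ := ih (fun c hc => hA c (Finset.mem_insert_of_mem hc))
      (fun hc => ha (Finset.mem_insert_of_mem hc))
    have hsb : s.1 ≠ b.1 := hA s (Finset.mem_insert_self _ _)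
    have hsa : s ≠ a := fun e => ha (by rw [e]; exact Finset.mem_insert_self _ _)
    have hsb' : s.1 ≠ (neg b).1 := hsb
    have hc : Commute (T s (neg b)) (T a b) :=
      T_comm hsb' h hsa hsb (show a.1 ≠ (neg b).1 from h)
    have hμb : μ (x (neg b)) = (x b)⁻¹ := by rw [x_neg, map_inv, hμ3]
    refine ⟨μ * T s (neg b), hμ1.mul_left hc, ?_, ?_, ?_⟩
    · rw [hφ _ _ hμ1 hc, hμ2, hs s hsa hsb, add_zero]
    · rw [MulAut.mul_apply, T_other (show b.1 ≠ s.1 from hsb.symm), hμ3]
    · intro i hi
      rw [MulAut.mul_apply]
      by_cases his : i = s.1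
      · obtain ⟨j, t⟩ := s
        simp only at his
        subst his
        cases t
        · have e1 : x (i, true) = x (neg ((i, false) : SL n)) := rfl
          have e2 : T (i, false) (neg b) (x (i, true)) = x b * x (i, true) := by
            rw [e1, T_self_neg hsb', neg_neg]
          rw [e2, map_mul, hμ3, hμ4 i hi, if_neg hsA]
          have e3 : ((i, false) : SL n) ∈ insert ((i, false) : SL n) A :=
            Finset.mem_insert_self _ _
          have e4 : (((i, true) : SL n) ∈ insert ((i, false) : SL n) A) ↔
              ((i, true) : SL n) ∈ A := by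
            rw [Finset.mem_insert]
            constructor
            · rintro (h1 | h1)
              · simp at h1
              · exact h1
            · exact Or.inr
          rw [if_pos e3]
          simp only [e4]
          simp [mul_assoc]
        · have e2 : T (i, true) (neg b) (x (i, true)) = x (i, true) * x (neg b) := T_self hsb'
          rw [e2, map_mul, hμb, hμ4 i hi, if_neg hsA]
          have e3 : ((i, true) : SL n) ∈ insert ((i, true) : SL n) A :=
            Finset.mem_insert_self _ _
          have e4 : (((i, false) : SL n) ∈ insert ((i, true) : SL n) A) ↔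
              ((i, false) : SL n) ∈ A := by
            rw [Finset.mem_insert]
            constructor
            · rintro (h1 | h1)
              · simp at h1
              · exact h1
            · exact Or.inr
          rw [if_pos e3]
          simp only [e4]
          simp [mul_assoc]
      · rw [T_other (show ((i, true) : SL n).1 ≠ s.1 from his), hμ4 i hi]
        have e4 : ∀ t : Bool, (((i, t) : SL n) ∈ insert s A) ↔ ((i, t) : SL n) ∈ A := by
          intro t
          rw [Finset.mem_insert]
          constructor
          · rintro (h1 | h1)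
            · exact absurd (congrArg Prod.fst h1) his
            · exact h1
          · exact Or.inr
        simp only [e4]

theorem phi_conj {a b : SL n} (h : a.1 ≠ b.1) (φ : AutF n → ℝ)
    (hφ : ∀ α β, Commute α (T a b) → Commute β (T a b) → φ (α * β) = φ α + φ β)
    (hs : ∀ s : SL n, s ≠ a → s.1 ≠ b.1 → φ (T s (neg b)) = 0) :
    φ (MulAut.conj (x b)) = φ (T a (neg b)) := by
  classical
  obtain ⟨μ, hμ1, hμ2, hμ3, hμ4⟩ := phi_aux h φ hφ hs
    (Finset.univ.filter fun c : SL n => c ≠ a ∧ c.1 ≠ b.1)
    (fun c hc => (Finset.mem_filter.1 hc).2.2)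
    (fun hc => (Finset.mem_filter.1 hc).2.1 rfl)
  simp only [Finset.mem_filter, Finset.mem_univ, true_and] at hμ4
  have hμb : μ (x (neg b)) = (x b)⁻¹ := by rw [x_neg, map_inv, hμ3]
  have h' : a.1 ≠ (neg b).1 := h
  have hc : Commute (T a (neg b)) (T a b) := by
    rw [T_neg h]
    exact (Commute.refl (T a b)).inv_left
  have key : μ * T a (neg b) = MulAut.conj (x b) := by
    refine aut_ext fun i => ?_
    by_cases hi : i = b.1
    · subst hi
      refine ⟨b.2, ?_⟩
      change μ (T a (neg b) (x b)) = x b * x b * (x b)⁻¹
      rw [T_other (show b.1 ≠ a.1 from h.symm), hμ3]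
      simp
    · refine ⟨true, ?_⟩
      rw [MulAut.mul_apply, MulAut.conj_apply]
      by_cases hia : i = a.1
      · obtain ⟨j, t⟩ := a
        simp only at hia
        subst hia
        cases t
        · have e1 : x (i, true) = x (neg ((i, false) : SL n)) := rfl
          have e2 : T (i, false) (neg b) (x (i, true)) = x b * x (i, true) := by
            rw [e1, T_self_neg h', neg_neg]
          rw [e2, map_mul, hμ3, hμ4 i hi]
          simp [hi, mul_assoc]
        · have e2 : T (i, true) (neg b) (x (i, true)) = x (i, true) * x (neg b) := T_self h'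
          rw [e2, map_mul, hμb, hμ4 i hi]
          simp [hi, mul_assoc]
      · rw [T_other (show ((i, true) : SL n).1 ≠ a.1 from hia), hμ4 i hi]
        have e5 : ∀ t : Bool, ((i, t) : SL n) ≠ a := fun t h1 => hia (congrArg Prod.fst h1)
        rw [if_pos ⟨e5 false, hi⟩, if_pos ⟨e5 true, hi⟩]
  rw [← key, hφ _ _ hμ1 hc, hμ2, zero_add]

end OutF
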