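import Pool.Agent.Lib.OutF.Defs

set_option autoImplicit false

/-!
MODULE RelT (about 120 lines). Relations between the transvections.

PROOF. All by `aut_ext`: for the index `i` choose the sign `s` such that `(i, s)` is the letter acted upon
(`a`, `a'` or `s`, `t` below; any sign if `i` is another letter) and compute with `MulAut.mul_apply`, `T_self`,
`T_self_neg`, `T_other`, `map_mul`, `x_neg`.
`T_neg`: show `T a (neg b) * T a b = 1` : `x_a ↦ T a (neg b) (x_a x_b) = x_a x_b⁻¹ x_b = x_a`.
`T_comm`: if `a.1 ≠ a'.1`: on `x_a` both products give `x_a x_b`, on `x_{a'}` both give `x_{a'} x_{b'}`. If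
`a.1 = a'.1`, `a' = neg a` (`eq_or_neg`): on `x_a` both give `x_{neg b'} x_a x_b`.
`T_three`: equivalent to `T t u * T s t = T s t * T s u * T t u`. On `x_s`: left `x_s ↦ T t u (x_s x_t) = x_s x_t x_u`,
right `x_s ↦ T s t (x_s x_u) = x_s x_t x_u`. On `x_t`: both `x_t x_u`.
`sp_T`: on `x_{σ a}`: `sp σ (T a b (x_a)) = x_{σ a} x_{σ b}` (`sp_inv_x`, `sp_x`); other letters: `c = σ c'` with
`c' = σ⁻¹ c`, `c'.1 ≠ a.1` (`sp_fst`).
-/

namespace OutF

variable {n : ℕ}

private theorem aut_ext2 {α β : AutF n} (h : ∀ i : Fin n, ∃ c : SL n, c.1 = i ∧ α (x c) = β (x c)) :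
    α = β := by
  refine aut_ext fun i => ?_
  obtain ⟨⟨j, s⟩, rfl, hc⟩ := h i
  exact ⟨s, hc⟩

theorem T_neg {a b : SL n} (h : a.1 ≠ b.1) : T a (neg b) = (T a b)⁻¹ := by
  apply eq_inv_of_mul_eq_one_left
  refine aut_ext2 fun i => ?_
  by_cases hi : i = a.1
  · refine ⟨a, hi.symm, ?_⟩
    rw [MulAut.mul_apply, T_self h, map_mul, T_self (b := neg b) (by exact h),
      T_other (by exact h.symm), x_neg]
    simp
  · refine ⟨(i, true), rfl, ?_⟩
    rw [MulAut.mul_apply, T_other (by exact hi), T_other (by exact hi)]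
    rfl

theorem T_comm {a b a' b' : SL n} (h : a.1 ≠ b.1) (h' : a'.1 ≠ b'.1) (h1 : a ≠ a')
    (h2 : a.1 ≠ b'.1) (h3 : a'.1 ≠ b.1) : Commute (T a b) (T a' b') := by
  refine aut_ext2 fun i => ?_
  by_cases haa : a.1 = a'.1
  · have hn : a = neg a' := (eq_or_neg haa).resolve_left h1
    by_cases hi : i = a.1
    · refine ⟨a, hi.symm, ?_⟩
      have e1 : T a' b' (x a) = x (neg b') * x a := by
        rw [hn]
        exact T_self_neg h'
      have e2 : T a b (x (neg b')) = x (neg b') := T_other (by exact h2.symm)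
      have e3 : T a' b' (x b) = x b := T_other (by exact h3.symm)
      rw [MulAut.mul_apply, MulAut.mul_apply, e1, map_mul, e2, T_self h, map_mul, e1, e3,
        mul_assoc]
    · refine ⟨(i, true), rfl, ?_⟩
      have e1 : T a b (x (i, true)) = x (i, true) := T_other (by exact hi)
      have e2 : T a' b' (x (i, true)) = x (i, true) := T_other (by rw [← haa]; exact hi)
      rw [MulAut.mul_apply, MulAut.mul_apply, e2, e1, e2]
  · by_cases hi : i = a.1
    · refine ⟨a, hi.symm, ?_⟩
      have e1 : T a' b' (x a) = x a := T_other haa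
      have e2 : T a' b' (x b) = x b := T_other (by exact h3.symm)
      rw [MulAut.mul_apply, MulAut.mul_apply, e1, T_self h, map_mul, e1, e2]
    · by_cases hi' : i = a'.1
      · refine ⟨a', hi'.symm, ?_⟩
        have e1 : T a b (x a') = x a' := T_other (fun e => haa e.symm)
        have e2 : T a b (x b') = x b' := T_other (by exact h2.symm)
        rw [MulAut.mul_apply, MulAut.mul_apply, e1, T_self h', map_mul, e1, e2]
      · refine ⟨(i, true), rfl, ?_⟩
        have e1 : T a b (x (i, true)) = x (i, true) := T_other (by exact hi)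
        have e2 : T a' b' (x (i, true)) = x (i, true) := T_other (by exact hi')
        rw [MulAut.mul_apply, MulAut.mul_apply, e2, e1, e2]

theorem T_three {s t u : SL n} (h1 : s.1 ≠ t.1) (h2 : t.1 ≠ u.1) (h3 : s.1 ≠ u.1) :
    T s u = (T s t)⁻¹ * T t u * T s t * (T t u)⁻¹ := by
  have key : T s t * T s u * T t u = T t u * T s t := by
    refine aut_ext2 fun i => ?_
    have e1 : T t u (x s) = x s := T_other h1
    have e2 : T s t (x u) = x u := T_other h3.symm
    have e3 : T s u (x t) = x t := T_other h1.symm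
    have e4 : T s u (x u) = x u := T_other h3.symm
    have e5 : T s t (x t) = x t := T_other h1.symm
    by_cases hi : i = s.1
    · refine ⟨s, hi.symm, ?_⟩
      rw [MulAut.mul_apply, MulAut.mul_apply, MulAut.mul_apply, e1, T_self h3, map_mul,
        T_self h1, e2, map_mul, e1, T_self h2, mul_assoc]
    · by_cases hi' : i = t.1
      · refine ⟨t, hi'.symm, ?_⟩
        rw [MulAut.mul_apply, MulAut.mul_apply, MulAut.mul_apply, T_self h2, map_mul, e3, e4,
          map_mul, e5, e2, T_self h2]
      · refine ⟨(i, true), rfl, ?_⟩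
        have f1 : T s t (x (i, true)) = x (i, true) := T_other (by exact hi)
        have f2 : T s u (x (i, true)) = x (i, true) := T_other (by exact hi)
        have f3 : T t u (x (i, true)) = x (i, true) := T_other (by exact hi')
        rw [MulAut.mul_apply, MulAut.mul_apply, MulAut.mul_apply, f3, f2, f1, f3]
  rw [mul_assoc (T s t)⁻¹, ← key]
  group

theorem sp_T (σ : SP n) {a b : SL n} (h : a.1 ≠ b.1) :
    sp σ * T a b * (sp σ)⁻¹ = T (σ.1 a) (σ.1 b) := by
  refine aut_ext2 fun i => ?_
  by_cases hi : i = (σ.1 a).1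
  · refine ⟨σ.1 a, hi.symm, ?_⟩
    rw [MulAut.mul_apply, MulAut.mul_apply, sp_inv_x, T_self h, map_mul, sp_x, sp_x,
      T_self (sp_fst_ne σ h)]
  · refine ⟨(i, true), rfl, ?_⟩
    have e1 : σ.1 ((σ⁻¹).1 (i, true)) = (i, true) := σ.1.apply_symm_apply _
    have hne : ((σ⁻¹).1 (i, true)).1 ≠ a.1 := by
      intro e
      have := sp_fst σ e
      rw [e1] at this
      exact hi this
    rw [MulAut.mul_apply, MulAut.mul_apply]
    conv_lhs => rw [← e1]
    rw [sp_inv_x, T_other hne, sp_x, e1, T_other (by exact hi)]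

end OutF
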