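import Pool.Agent.Lib.OutF.RelC
import Pool.Agent.Lib.MP_985a2b_al.TransB

set_option autoImplicit false

/-!
MODULE Single (about 100 lines). Every transvection has almost fixed points (`4 ≤ n`).

PROOF. `AE.of_centralizer hX (T a b)`: let `φ` be additive on elements commuting with `c = T a b`. As usual
`φ 1 = 0` and `φ α⁻¹ = -φ α` for `α` commuting with `c`.
(i) If `s ≠ a`, `s.1 ≠ b.1`: `φ (T s (neg b)) = 0`. Choose `t = (k, true)` with `k ∉ {s.1, a.1, b.1}` (`4 ≤ n`: the finset
`{s.1, a.1, b.1}` has at most 3 elements). `T s t`, `T t b` commute with `c` (`T_comm`). By `T_three` (`u = b`)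
`φ (T s b) = -φ (T s t) + φ (T t b) + φ (T s t) - φ (T t b) = 0`; `T s (neg b) = (T s b)⁻¹` (`T_neg`).
(ii) `φ (MulAut.conj (x b)) = 0`: choose `p = (k, true)` with `k ∉ {a.1, b.1}`. `MulAut.conj (x p)`, `MulAut.conj (x b)` commute with
`c` (`conj_commute`, `T_other`), also `T p b` (`T_comm`, `p ≠ a`). By `conj_mul` and `T_self`:
`T p b * MulAut.conj (x p) * (T p b)⁻¹ = MulAut.conj (x p * x b) = MulAut.conj (x p) * MulAut.conj (x b)`; apply `φ`.
(iii) `phi_conj`: `0 = φ (T a (neg b)) = φ ((T a b)⁻¹) = -φ (T a b)`.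
-/

namespace OutF

open MP985a

variable {n : ℕ} {X : Type*} [MetricSpace X] [Nonempty X]
  [MulAction (AutF n) X] [IsIsometricSMul (AutF n) X]

private theorem sg_pick (hn : 4 ≤ n) (i j k : Fin n) : ∃ l : Fin n, l ≠ i ∧ l ≠ j ∧ l ≠ k := by
  by_contra hcon
  push Not at hcon
  have h1 : (Finset.univ : Finset (Fin n)) ⊆ {i, j, k} := by
    intro l _
    rw [Finset.mem_insert, Finset.mem_insert, Finset.mem_singleton]
    by_cases h1 : l = i
    · exact Or.inl h1
    · by_cases h2 : l = j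
      · exact Or.inr (Or.inl h2)
      · exact Or.inr (Or.inr (hcon l h1 h2))
  have h2 := Finset.card_le_card h1
  rw [Finset.card_univ, Fintype.card_fin] at h2
  have h3 : ({i, j, k} : Finset (Fin n)).card ≤ 3 := Finset.card_le_three
  omega

theorem AE_T (hX : CN X) (hn : 4 ≤ n) {a b : SL n} (h : a.1 ≠ b.1) :
    AE X ({T a b} : Set (AutF n)) := by
  refine AE.of_centralizer hX (T a b) fun φ hφ => ?_
  have c1 : Commute (1 : AutF n) (T a b) := Commute.one_left _
  have h0 : φ 1 = 0 := by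
    have h1 := hφ 1 1 c1 c1
    rw [mul_one] at h1
    linarith
  have hinv : ∀ α : AutF n, Commute α (T a b) → φ α⁻¹ = -φ α := by
    intro α hα
    have h1 := hφ α α⁻¹ hα hα.inv_left
    rw [mul_inv_cancel, h0] at h1
    linarith
  have hcj : ∀ α β : AutF n, Commute α (T a b) → Commute β (T a b) →
      φ (α * β * α⁻¹) = φ β := by
    intro α β hα hβ
    rw [hφ _ _ (hα.mul_left hβ) hα.inv_left, hφ _ _ hα hβ, hinv α hα]
    ring
  have hs : ∀ s : SL n, s ≠ a → s.1 ≠ b.1 → φ (T s (neg b)) = 0 := by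
    intro s hsa hsb
    obtain ⟨k, k1, k2, k3⟩ := sg_pick hn s.1 a.1 b.1
    have q1 : Commute (T s (k, true)) (T a b) :=
      T_comm (fun e => k1 e.symm) h hsa hsb (fun e => k2 e.symm)
    have q2 : Commute (T (k, true) b) (T a b) :=
      T_comm k3 h (fun e => k2 (congrArg Prod.fst e)) k3 h
    have q3 : Commute (T s b) (T a b) := T_comm hsb h hsa hsb h
    have h3 := T_three (s := s) (t := (k, true)) (u := b) (fun e => k1 e.symm) k3 hsb
    have h4 : φ (T s b) = 0 := by
      rw [h3, hφ _ _ ((q1.inv_left.mul_left q2).mul_left q1) q2.inv_left,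
        hφ _ _ (q1.inv_left.mul_left q2) q1, hφ _ _ q1.inv_left q2, hinv _ q1, hinv _ q2]
      ring
    rw [T_neg hsb, hinv _ q3, h4, neg_zero]
  have hb : φ (MulAut.conj (x b)) = 0 := by
    obtain ⟨k, -, k2, k3⟩ := sg_pick hn a.1 a.1 b.1
    have q1 : Commute (MulAut.conj (x ((k, true) : SL n))) (T a b) :=
      conj_commute (T_other k2)
    have q2 : Commute (MulAut.conj (x b)) (T a b) := conj_commute (T_other (Ne.symm h))
    have q3 : Commute (T (k, true) b) (T a b) :=
      T_comm k3 h (fun e => k2 (congrArg Prod.fst e)) k3 h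
    have h3 := conj_mul (T (k, true) b) (x ((k, true) : SL n))
    rw [T_self (a := ((k, true) : SL n)) k3, map_mul] at h3
    have h4 := hcj _ _ q3 q1
    rw [h3, hφ _ _ q1 q2] at h4
    linarith
  have h5 := phi_conj h φ hφ hs
  have h6 : Commute (T a b) (T a b) := Commute.refl _
  rw [hb, T_neg h, hinv _ h6] at h5
  linarith

end OutF
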