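import Pool.Agent.Lib.OutF.Single
import Pool.Agent.Lib.MP_985a2b_al.DupG

set_option autoImplicit false

/-!
MODULE Star (about 150 lines). Stars of transvections.

PROOF. `exists_sp`: if `a = b`: `1`. If `b = neg a`: `li a.1` (`li_self`, `li_other`). If `a.1 ≠ b.1`:
`Equiv.swap a b * Equiv.swap (neg a) (neg b)` (check membership in `SP n` by cases), or `lp (Equiv.swap a.1 b.1)` followed by
`li b.1` if the signs are different.
`card_out`: the set of the signed letters `c` with `c.1 ∉ B` is `(Bᶜ) ×ˢ univ`, so it has `(n - card B) * 2` elements; take an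
enumeration (`Finset.equivFin` or `Fintype.equivFinOfCardEq` ...).
`arith_star`: `m - 1 ≥ 1` and `n - m ≥ 1`, and `(n - m) * (m - 1) ≥ n - 2` because `(n - m - 1) * (m - 2) ≥ 0`.
`AE_star`: strong induction on `m = B.card` (for all `B`). `m = 0`: `AE.empty`. `m = 1`: `AE_T`. `m ≥ 2`: note `m < n`
(`a.1 ∉ B`). `helly_induct` with `ι = Fin n`, `T k := T a (k, true)`, `F = B`, `K = m - 1`, `N = (n - m) * 2`, `f t = sp (σ t)` with
`σ t` from `exists_sp a (e t)`, `e` from `card_out`: by `sp_T`, `f t * T a (k, true) * (f t)⁻¹ = T (e t) (k, true)` for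
`k ∈ B` (`σ t` fixes `(k, true)`: `k ≠ a.1`, `k ≠ (e t).1`). For `t ≠ t'` they commute by `T_comm` (`e t ≠ e t'`, `(e t).1 ∉ B`).
`hsmall`: induction hypothesis for the subset. `d < N * K` from `arith_star`.
-/

namespace OutF

open MP985a

variable {n : ℕ} {X : Type*} [MetricSpace X] [CompleteSpace X] [Nonempty X]
  [MulAction (AutF n) X] [IsIsometricSMul (AutF n) X]

omit [MetricSpace X] [CompleteSpace X] [Nonempty X] [MulAction (AutF n) X]
  [IsIsometricSMul (AutF n) X] in
theorem exists_sp (a b : SL n) :
    ∃ σ : SP n, σ.1 a = b ∧ ∀ c : SL n, c.1 ≠ a.1 → c.1 ≠ b.1 → σ.1 c = c := by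
  classical
  by_cases h1 : a.1 = b.1
  · rcases eq_or_neg h1 with rfl | rfl
    · exact ⟨1, rfl, fun c _ _ => rfl⟩
    · refine ⟨li b.1, ?_, ?_⟩
      · have h2 := li_self (neg b)
        rw [neg_fst, neg_neg] at h2
        exact h2
      · intro c hc _
        exact li_other hc
  · have hab : a ≠ b := fun h => h1 (congrArg Prod.fst h)
    have hanb : a ≠ neg b := by
      intro h
      have h2 := congrArg Prod.fst h
      exact h1 h2
    have hnab : neg a ≠ b := by
      intro h
      have h2 := congrArg Prod.fst h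
      exact h1 h2
    let σ : Equiv.Perm (SL n) := Equiv.swap a b * Equiv.swap (neg a) (neg b)
    have e1 : σ a = b := by
      show Equiv.swap a b (Equiv.swap (neg a) (neg b) a) = b
      rw [Equiv.swap_apply_of_ne_of_ne (neg_ne a).symm hanb, Equiv.swap_apply_left]
    have e2 : σ b = a := by
      show Equiv.swap a b (Equiv.swap (neg a) (neg b) b) = a
      rw [Equiv.swap_apply_of_ne_of_ne hnab.symm (neg_ne b).symm, Equiv.swap_apply_right]
    have e3 : σ (neg a) = neg b := by
      show Equiv.swap a b (Equiv.swap (neg a) (neg b) (neg a)) = neg b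
      rw [Equiv.swap_apply_left, Equiv.swap_apply_of_ne_of_ne hanb.symm (neg_ne b)]
    have e4 : σ (neg b) = neg a := by
      show Equiv.swap a b (Equiv.swap (neg a) (neg b) (neg b)) = neg a
      rw [Equiv.swap_apply_right, Equiv.swap_apply_of_ne_of_ne (neg_ne a) hnab]
    have e5 : ∀ c : SL n, c.1 ≠ a.1 → c.1 ≠ b.1 → σ c = c := by
      intro c hca hcb
      have d1 : c ≠ a := fun h => hca (congrArg Prod.fst h)
      have d2 : c ≠ b := fun h => hcb (congrArg Prod.fst h)
      have d3 : c ≠ neg a := by
        intro h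
        have h2 := congrArg Prod.fst h
        exact hca h2
      have d4 : c ≠ neg b := by
        intro h
        have h2 := congrArg Prod.fst h
        exact hcb h2
      show Equiv.swap a b (Equiv.swap (neg a) (neg b) c) = c
      rw [Equiv.swap_apply_of_ne_of_ne d3 d4, Equiv.swap_apply_of_ne_of_ne d1 d2]
    refine ⟨⟨σ, ?_⟩, e1, e5⟩
    intro c
    by_cases hca : c.1 = a.1
    · rcases eq_or_neg hca with rfl | rfl
      · rw [e3, e1]
      · rw [neg_neg, e1, e3, neg_neg]
    by_cases hcb : c.1 = b.1
    · rcases eq_or_neg hcb with rfl | rfl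
      · rw [e4, e2]
      · rw [neg_neg, e2, e4, neg_neg]
    rw [e5 c hca hcb, e5 (neg c) (by rw [neg_fst]; exact hca) (by rw [neg_fst]; exact hcb)]

omit [MetricSpace X] [CompleteSpace X] [Nonempty X] [MulAction (AutF n) X]
  [IsIsometricSMul (AutF n) X] in
theorem card_out (B : Finset (Fin n)) :
    ∃ e : Fin ((n - B.card) * 2) → SL n, Function.Injective e ∧ ∀ t, (e t).1 ∉ B := by
  classical
  have h1 : (Bᶜ ×ˢ (Finset.univ : Finset Bool)).card = (n - B.card) * 2 := by
    rw [Finset.card_product, Finset.card_compl, Fintype.card_fin, Finset.card_univ,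
      Fintype.card_bool]
  let e := (Finset.equivFinOfCardEq h1).symm
  refine ⟨fun t => (e t).1, ?_, ?_⟩
  · intro t t' h
    exact e.injective (Subtype.ext h)
  · intro t
    have h2 := (Finset.mem_product.mp (e t).2).1
    exact Finset.mem_compl.mp h2

omit [MetricSpace X] [CompleteSpace X] [Nonempty X] [MulAction (AutF n) X]
  [IsIsometricSMul (AutF n) X] in
theorem arith_star {n m d : ℕ} (hn : 4 ≤ n) (h2 : 2 ≤ m) (hm : m < n) (hd : d + 1 < n) :
    d < ((n - m) * 2) * (m - 1) := by
  obtain ⟨p, rfl⟩ : ∃ p, m = p + 2 := ⟨m - 2, by omega⟩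
  obtain ⟨q, rfl⟩ : ∃ q, n = p + 2 + (q + 1) := ⟨n - (p + 2) - 1, by omega⟩
  have h1 : p + 2 + (q + 1) - (p + 2) = q + 1 := by omega
  have h3 : p + 2 - 1 = p + 1 := by omega
  rw [h1, h3]
  nlinarith [Nat.zero_le (p * q)]

theorem AE_star (hX : CN X) {d : ℕ} (hE : Ess X d) (hn : 4 ≤ n) (hd : d + 1 < n) (a : SL n)
    (B : Finset (Fin n)) (ha : a.1 ∉ B) :
    AE X ((fun k : Fin n => T a (k, true)) '' (B : Set (Fin n))) := by
  classical
  have key : ∀ m : ℕ, ∀ B : Finset (Fin n), B.card = m → a.1 ∉ B →
      AE X ((fun k : Fin n => T a (k, true)) '' (B : Set (Fin n))) := by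
    intro m
    induction m using Nat.strong_induction_on with
    | _ m ih =>
      intro B hB ha
      rcases Nat.lt_or_ge m 2 with hm | hm
      · rcases Nat.eq_zero_or_pos m with h0 | h0
        · have hB0 : B = ∅ := Finset.card_eq_zero.mp (hB.trans h0)
          rw [hB0, Finset.coe_empty, Set.image_empty]
          exact AE.empty
        · have hB1 : B.card = 1 := by omega
          obtain ⟨k, rfl⟩ := Finset.card_eq_one.mp hB1
          rw [Finset.coe_singleton, Set.image_singleton]
          refine AE_T hX hn ?_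
          intro h
          exact ha (by rw [h]; exact Finset.mem_singleton_self _)
      · have hmn : m < n := by
          have h1 : B.card < (Finset.univ : Finset (Fin n)).card :=
            Finset.card_lt_card (Finset.ssubset_univ_iff.mpr (fun h => ha (by rw [h]; exact Finset.mem_univ _)))
          rw [Finset.card_univ, Fintype.card_fin, hB] at h1
          exact h1
        have hco := card_out B
        rw [hB] at hco
        obtain ⟨e, he1, he2⟩ := hco
        choose σ hσ1 hσ2 using fun t => exists_sp a (e t)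
        have hconj : ∀ t, ∀ k ∈ B, sp (σ t) * T a (k, true) * (sp (σ t))⁻¹ = T (e t) (k, true) := by
          intro t k hk
          have h1 : a.1 ≠ k := fun h => ha (by rw [h]; exact hk)
          have h2 : (e t).1 ≠ k := fun h => he2 t (by rw [h]; exact hk)
          rw [sp_T (σ t) (a := a) (b := (k, true)) h1, hσ1,
            hσ2 t (k, true) (Ne.symm h1) (Ne.symm h2)]
        refine helly_induct hX hE (arith_star hn hm hmn hd)
          (fun k : Fin n => T a (k, true)) B (fun t => sp (σ t)) ?_ ?_
        · intro t t' htt k hk k' hk'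
          rw [hconj t k hk, hconj t' k' hk']
          have h1 : (e t).1 ≠ k := fun h => he2 t (by rw [h]; exact hk)
          have h2 : (e t').1 ≠ k' := fun h => he2 t' (by rw [h]; exact hk')
          have h3 : (e t).1 ≠ k' := fun h => he2 t (by rw [h]; exact hk')
          have h4 : (e t').1 ≠ k := fun h => he2 t' (by rw [h]; exact hk)
          exact T_comm h1 h2 (fun h => htt (he1 h)) h3 h4
        · intro S hS hcard
          exact ih S.card (by omega) S rfl (fun h => ha (hS h))
  exact key B.card B rfl ha

end OutF
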